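import Mathlib

/-!
# Contractions on complete F-symmetric spaces have a fixed point
-/

namespace Pool.Agent.Results.MP_9f7db3_an.FSymmetricContraction

open Filter Topology

/-- `d` is a symmetric on `X`. -/
def IsSymmetricDist {X : Type*} (d : X → X → ℝ) : Prop :=
  (∀ x y, 0 ≤ d x y) ∧ (∀ x y, d x y = d y x) ∧ ∀ x y, d x y + d y x = 0 ↔ x = y

/-- Condition (F): for every `ε > 0` there is `δ > 0` such that `d x y ≤ δ` and `d y z ≤ δ`
imply `d x z ≤ ε`. -/
def CondF {X : Type*} (d : X → X → ℝ) : Prop :=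
  ∀ ε > 0, ∃ δ > 0, ∀ x y z, d x y ≤ δ → d y z ≤ δ → d x z ≤ ε

/-- `(x_n)` is Cauchy: `d (x n) (x m) → 0` as `n, m → ∞`. -/
def IsCauchySeqFor {X : Type*} (d : X → X → ℝ) (u : ℕ → X) : Prop :=
  Tendsto (fun p : ℕ × ℕ => d (u p.1) (u p.2)) (atTop ×ˢ atTop) (𝓝 0)

/-- `(x_n)` converges to `x`: `d x (x n) → 0`. -/
def ConvergesTo {X : Type*} (d : X → X → ℝ) (u : ℕ → X) (x : X) : Prop :=
  Tendsto (fun n => d x (u n)) atTop (𝓝 0)

/-- Completeness: every Cauchy sequence converges. -/
def IsCompleteFor {X : Type*} (d : X → X → ℝ) : Prop :=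
  ∀ u : ℕ → X, IsCauchySeqFor d u → ∃ x, ConvergesTo d u x

/-- `g` is a contraction. -/
def IsContraction {X : Type*} (d : X → X → ℝ) (g : X → X) : Prop :=
  ∃ c : ℝ, 0 ≤ c ∧ c < 1 ∧ ∀ x y, d (g x) (g y) ≤ c * d x y

/-- **Main result.** Every contraction `g` of a (nonempty) complete F-symmetric space `(X, d)`
has a fixed point; it is unique, and for every `x` the Picard orbit `(g^n x)` is a Cauchy
sequence converging to it. -/
theorem result {X : Type*} [Nonempty X] (d : X → X → ℝ) (hd : IsSymmetricDist d)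
    (hF : CondF d) (hcomp : IsCompleteFor d) (g : X → X) (hg : IsContraction d g) :
    ∃ p : X, g p = p ∧ (∀ q, g q = q → q = p) ∧
      ∀ x : X, IsCauchySeqFor d (fun n => g^[n] x) ∧ ConvergesTo d (fun n => g^[n] x) p := by
  obtain ⟨hnn, hsym, hz⟩ := hd
  obtain ⟨c, hc0, hc1, hgc⟩ := hg
  have hiter : ∀ n : ℕ, ∀ x y, d (g^[n] x) (g^[n] y) ≤ c ^ n * d x y := by
    intro n
    induction n with
    | zero => intro x y; simp
    | succ n ih =>
      intro x y
      rw [Function.iterate_succ_apply', Function.iterate_succ_apply']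
      calc d (g (g^[n] x)) (g (g^[n] y)) ≤ c * d (g^[n] x) (g^[n] y) := hgc _ _
        _ ≤ c * (c ^ n * d x y) := mul_le_mul_of_nonneg_left (ih x y) hc0
        _ = c ^ (n + 1) * d x y := by ring
  have hpow : Tendsto (fun n : ℕ => c ^ n) atTop (𝓝 0) := tendsto_pow_atTop_nhds_zero_of_lt_one hc0 hc1
  have hself : ∀ x, d x x = 0 := by
    intro x
    have h := (hz x x).2 rfl
    linarith
  have heq : ∀ x y, d x y = 0 → x = y := by
    intro x y h
    apply (hz x y).1
    rw [hsym y x, h]; ring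
  -- key step
  have hkey : ∀ x : X, ∀ ε > 0, ∃ n₀ : ℕ, ∀ n ≥ n₀, ∀ i : ℕ, d (g^[n] x) (g^[n + i] x) ≤ ε := by
    intro x ε hε
    obtain ⟨δ, hδ, hFδ⟩ := hF ε hε
    -- choose k ≥ 1 with c^k ε ≤ δ
    have h1 : ∀ᶠ k : ℕ in atTop, c ^ k * ε ≤ δ := by
      have h := hpow.mul_const ε
      rw [zero_mul] at h
      exact h.eventually_le_const hδ
    obtain ⟨k, hk, hk1⟩ := (h1.and (eventually_ge_atTop 1)).exists
    -- n₀ with d (g^n x) (g^{n+j} x) ≤ min δ ε for all j ≤ k
    have h2 : ∀ᶠ n : ℕ in atTop, ∀ j ∈ Finset.range (k + 1),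
        d (g^[n] x) (g^[n + j] x) ≤ min δ ε := by
      rw [eventually_all_finset]
      intro j _
      have h := hpow.mul_const (d x (g^[j] x))
      rw [zero_mul] at h
      filter_upwards [h.eventually_le_const (lt_min hδ hε)] with n hn
      have h3 := hiter n x (g^[j] x)
      rw [← Function.iterate_add_apply] at h3
      exact h3.trans hn
    obtain ⟨n₀, hn₀⟩ := eventually_atTop.1 h2
    refine ⟨n₀, fun n hn => ?_⟩
    have hj := hn₀ n hn
    -- strong induction on i
    intro i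
    induction i using Nat.strong_induction_on with
    | _ i ih =>
      rcases lt_or_ge i k with hik | hik
      · exact (hj i (Finset.mem_range.2 (by omega))).trans (min_le_right _ _)
      · have h4 := ih (i - k) (by omega)
        have h5 : d (g^[n + k] x) (g^[n + i] x) ≤ δ := by
          have h6 := hiter k (g^[n] x) (g^[n + (i - k)] x)
          rw [← Function.iterate_add_apply, ← Function.iterate_add_apply] at h6
          have e1 : k + n = n + k := by omega
          have e2 : k + (n + (i - k)) = n + i := by omega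
          rw [e1, e2] at h6
          calc _ ≤ c ^ k * d (g^[n] x) (g^[n + (i - k)] x) := h6
            _ ≤ c ^ k * ε := mul_le_mul_of_nonneg_left h4 (pow_nonneg hc0 _)
            _ ≤ δ := hk
        exact hFδ _ _ _ ((hj k (Finset.mem_range.2 (by omega))).trans (min_le_left _ _)) h5
  have hcauchy : ∀ x : X, IsCauchySeqFor d (fun n => g^[n] x) := by
    intro x
    unfold IsCauchySeqFor
    rw [Metric.tendsto_nhds]
    intro ε hε
    obtain ⟨n₀, hn₀⟩ := hkey x (ε / 2) (by positivity)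
    rw [prod_atTop_atTop_eq]
    filter_upwards [eventually_ge_atTop (n₀, n₀)] with p hp
    have hp1 : n₀ ≤ p.1 := hp.1
    have hp2 : n₀ ≤ p.2 := hp.2
    rw [Real.dist_eq, sub_zero, abs_of_nonneg (hnn _ _)]
    rcases le_total p.1 p.2 with h | h
    · have h1 := hn₀ p.1 hp1 (p.2 - p.1)
      rw [Nat.add_sub_cancel' h] at h1
      linarith
    · have h1 := hn₀ p.2 hp2 (p.1 - p.2)
      rw [Nat.add_sub_cancel' h, hsym] at h1
      linarith
  have hfix : ∀ x p : X, ConvergesTo d (fun n => g^[n] x) p → g p = p := by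
    intro x p hp
    symm
    apply heq
    apply le_antisymm _ (hnn _ _)
    apply le_of_forall_pos_le_add
    intro ε hε
    rw [zero_add]
    obtain ⟨δ, hδ, hFδ⟩ := hF ε hε
    have h1 : ∀ᶠ n in atTop, d p (g^[n] x) ≤ δ := hp.eventually_le_const hδ
    have h2 : ∀ᶠ n in atTop, d p (g^[n + 1] x) ≤ δ := (tendsto_add_atTop_iff_nat 1).2 hp
      |>.eventually_le_const hδ
    obtain ⟨n, hn1, hn2⟩ := (h1.and h2).exists
    apply hFδ p (g^[n + 1] x) (g p) hn2
    rw [hsym, Function.iterate_succ_apply']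
    calc d (g p) (g (g^[n] x)) ≤ c * d p (g^[n] x) := hgc _ _
      _ ≤ 1 * d p (g^[n] x) := mul_le_mul_of_nonneg_right hc1.le (hnn _ _)
      _ ≤ δ := by rw [one_mul]; exact hn1
  have huniq : ∀ p q : X, g p = p → g q = q → q = p := by
    intro p q hp hq
    apply heq
    have h := hgc q p
    rw [hp, hq] at h
    have h1 := hnn q p
    nlinarith
  obtain ⟨x₀⟩ := ‹Nonempty X›
  obtain ⟨p, hp⟩ := hcomp _ (hcauchy x₀)
  have hgp := hfix x₀ p hp
  refine ⟨p, hgp, fun q hq => huniq p q hgp hq, fun x => ⟨hcauchy x, ?_⟩⟩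
  obtain ⟨q, hq⟩ := hcomp _ (hcauchy x)
  have hgq := hfix x q hq
  rw [huniq p q hgp hgq] at hq
  exact hq

end Pool.Agent.Results.MP_9f7db3_an.FSymmetricContraction
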