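import Mathlib

/-!
# Metric mean dimension of Hölder interval maps

For an `α`-Hölder map `φ : [0,1] → [0,1]` the upper metric mean dimension is at most `1 - α`.
-/

namespace Pool.Agent.Results.MP_428550_an.HolderMeanDim

open Filter Topology Set

/-- `A` is `(n, φ, ε)`-separated: distinct points of `A` satisfy
`max_{0 ≤ j < n} |φ^j x - φ^j y| > ε`. -/
def IsSep (φ : Icc (0 : ℝ) 1 → Icc (0 : ℝ) 1) (n : ℕ) (ε : ℝ)
    (A : Finset (Icc (0 : ℝ) 1)) : Prop :=
  ∀ x ∈ A, ∀ y ∈ A, x ≠ y → ∃ j < n, ε < |((φ^[j] x : Icc (0 : ℝ) 1) : ℝ) - φ^[j] y|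

/-- The set of cardinalities of the `(n, φ, ε)`-separated sets. -/
def sepCards (φ : Icc (0 : ℝ) 1 → Icc (0 : ℝ) 1) (n : ℕ) (ε : ℝ) : Set ℕ :=
  {k | ∃ A : Finset (Icc (0 : ℝ) 1), IsSep φ n ε A ∧ A.card = k}

/-- `sep(n, φ, ε)`: the maximal cardinality of an `(n, φ, ε)`-separated set. -/
noncomputable def sepNum (φ : Icc (0 : ℝ) 1 → Icc (0 : ℝ) 1) (n : ℕ) (ε : ℝ) : ℕ :=
  sSup (sepCards φ n ε)

/-- `sep(φ, ε) = limsup_n (1/n) log sep(n, φ, ε)`. -/
noncomputable def sepRate (φ : Icc (0 : ℝ) 1 → Icc (0 : ℝ) 1) (ε : ℝ) : EReal :=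
  limsup (fun n : ℕ => ((1 / (n : ℝ) * Real.log (sepNum φ n ε) : ℝ) : EReal)) atTop

/-- The upper metric mean dimension `limsup_{ε → 0+} sep(φ, ε) / |log ε|`. -/
noncomputable def upperMdim (φ : Icc (0 : ℝ) 1 → Icc (0 : ℝ) 1) : EReal :=
  limsup (fun ε : ℝ => sepRate φ ε / ((|Real.log ε| : ℝ) : EReal)) (𝓝[>] 0)

/-- The lower metric mean dimension `liminf_{ε → 0+} sep(φ, ε) / |log ε|`. -/
noncomputable def lowerMdim (φ : Icc (0 : ℝ) 1 → Icc (0 : ℝ) 1) : EReal :=
  liminf (fun ε : ℝ => sepRate φ ε / ((|Real.log ε| : ℝ) : EReal)) (𝓝[>] 0)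

/-- Code of a point: the index of its interval of length `1/N`. -/
noncomputable def code (N : ℕ) (x : Icc (0 : ℝ) 1) : ℕ := ⌊(x : ℝ) * N⌋₊

lemma code_close {N : ℕ} (hN : 0 < N) {x y : Icc (0 : ℝ) 1} (h : code N x = code N y) :
    |(x : ℝ) - y| < 1 / N := by
  have hN' : (0 : ℝ) < N := by exact_mod_cast hN
  have hx0 : 0 ≤ (x : ℝ) * N := mul_nonneg x.2.1 hN'.le
  have hy0 : 0 ≤ (y : ℝ) * N := mul_nonneg y.2.1 hN'.le
  have h1 := Nat.floor_le hx0
  have h2 := Nat.lt_floor_add_one ((x : ℝ) * N)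
  have h3 := Nat.floor_le hy0
  have h4 := Nat.lt_floor_add_one ((y : ℝ) * N)
  unfold code at h
  rw [h] at h1 h2
  rw [lt_div_iff₀ hN', ← abs_of_pos hN', ← abs_mul, abs_lt]
  constructor <;> nlinarith

lemma code_le {N : ℕ} (x : Icc (0 : ℝ) 1) : code N x < N + 1 := by
  unfold code
  have : (x : ℝ) * N ≤ N := by
    have := x.2.2
    have h0 : (0 : ℝ) ≤ N := Nat.cast_nonneg N
    nlinarith
  have h := Nat.floor_le_floor this
  rw [Nat.floor_natCast] at h
  omega

/-- A finite set of naturals whose elements differ pairwise by less than `M` has at most `M`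
elements. -/
lemma card_le_of_diff (S : Finset ℕ) (M : ℕ) (h : ∀ a ∈ S, ∀ b ∈ S, a < b + M) :
    S.card ≤ M := by
  rcases S.eq_empty_or_nonempty with rfl | hS
  · simp
  · have hsub : S ⊆ Finset.Ico (S.min' hS) (S.min' hS + M) := by
      intro a ha
      rw [Finset.mem_Ico]
      exact ⟨S.min'_le a ha, h a ha _ (S.min'_mem hS)⟩
    calc S.card ≤ _ := Finset.card_le_card hsub
      _ = M := by simp

/-- The counting bound for sets of points with distinct itineraries and a common first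
symbol. -/
lemma card_itin (φ : Icc (0 : ℝ) 1 → Icc (0 : ℝ) 1) (N M : ℕ)
    (hM : ∀ x y : Icc (0 : ℝ) 1, code N x = code N y → code N (φ x) < code N (φ y) + M)
    (n : ℕ) : ∀ (A : Finset (Icc (0 : ℝ) 1)),
      (∀ x ∈ A, ∀ y ∈ A, (∀ j < n + 1, code N (φ^[j] x) = code N (φ^[j] y)) → x = y) →
      (∀ x ∈ A, ∀ y ∈ A, code N x = code N y) → A.card ≤ M ^ n := by
  classical
  induction n with
  | zero =>
    intro A hA hA2
    rw [pow_zero, Finset.card_le_one]
    intro x hx y hy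
    apply hA x hx y hy
    intro j hj
    have : j = 0 := by omega
    subst this
    exact hA2 x hx y hy
  | succ n ih =>
    intro A hA hA2
    have hinj : Set.InjOn φ A := by
      intro x hx y hy hxy
      apply hA x hx y hy
      intro j hj
      cases j with
      | zero => exact hA2 x hx y hy
      | succ j => rw [Function.iterate_succ_apply, Function.iterate_succ_apply, hxy]
    set B := A.image φ with hB
    have hBc : B.card = A.card := Finset.card_image_of_injOn hinj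
    have hB1 : ∀ x ∈ B, ∀ y ∈ B, (∀ j < n + 1, code N (φ^[j] x) = code N (φ^[j] y)) → x = y := by
      intro x hx y hy h
      obtain ⟨x', hx', rfl⟩ := Finset.mem_image.1 hx
      obtain ⟨y', hy', rfl⟩ := Finset.mem_image.1 hy
      have : x' = y' := by
        apply hA x' hx' y' hy'
        intro j hj
        cases j with
        | zero => exact hA2 x' hx' y' hy'
        | succ j =>
          rw [Function.iterate_succ_apply, Function.iterate_succ_apply]
          exact h j (by omega)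
      rw [this]
    have h1 : (B.image (code N)).card ≤ M := by
      apply card_le_of_diff
      intro a ha b hb
      obtain ⟨x, hx, rfl⟩ := Finset.mem_image.1 ha
      obtain ⟨y, hy, rfl⟩ := Finset.mem_image.1 hb
      obtain ⟨x', hx', rfl⟩ := Finset.mem_image.1 hx
      obtain ⟨y', hy', rfl⟩ := Finset.mem_image.1 hy
      exact hM x' y' (hA2 x' hx' y' hy')
    have h2 : B.card ≤ M ^ n * (B.image (code N)).card := by
      apply Finset.card_le_mul_card_image
      intro b _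
      apply ih
      · intro x hx y hy h
        exact hB1 x (Finset.mem_filter.1 hx).1 y (Finset.mem_filter.1 hy).1 h
      · intro x hx y hy
        rw [(Finset.mem_filter.1 hx).2, (Finset.mem_filter.1 hy).2]
    calc A.card = B.card := hBc.symm
      _ ≤ M ^ n * (B.image (code N)).card := h2
      _ ≤ M ^ n * M := Nat.mul_le_mul_left _ h1
      _ = M ^ (n + 1) := (pow_succ _ _).symm

lemma card_itin' (φ : Icc (0 : ℝ) 1 → Icc (0 : ℝ) 1) (N M : ℕ)
    (hM : ∀ x y : Icc (0 : ℝ) 1, code N x = code N y → code N (φ x) < code N (φ y) + M)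
    (n : ℕ) (A : Finset (Icc (0 : ℝ) 1))
    (hA : ∀ x ∈ A, ∀ y ∈ A, (∀ j < n + 1, code N (φ^[j] x) = code N (φ^[j] y)) → x = y) :
    A.card ≤ M ^ n * (N + 1) := by
  classical
  have h1 : (A.image (code N)).card ≤ N + 1 := by
    apply card_le_of_diff
    intro a ha b hb
    obtain ⟨x, hx, rfl⟩ := Finset.mem_image.1 ha
    have := code_le (N := N) x
    omega
  have h2 : A.card ≤ M ^ n * (A.image (code N)).card := by
    apply Finset.card_le_mul_card_image
    intro b _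
    apply card_itin φ N M hM n
    · intro x hx y hy h
      exact hA x (Finset.mem_filter.1 hx).1 y (Finset.mem_filter.1 hy).1 h
    · intro x hx y hy
      rw [(Finset.mem_filter.1 hx).2, (Finset.mem_filter.1 hy).2]
  exact h2.trans (Nat.mul_le_mul_left _ h1)

/-- The bound on the number of separated points. -/
lemma sep_bound (φ : Icc (0 : ℝ) 1 → Icc (0 : ℝ) 1) (α K : ℝ) (hα : 0 < α)
    (hK : 0 < K) (hφ : ∀ x y : Icc (0 : ℝ) 1, |(φ x : ℝ) - φ y| ≤ K * |(x : ℝ) - y| ^ α)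
    (ε : ℝ) (N : ℕ) (hN : 0 < N) (hε : 1 / (N : ℝ) ≤ ε)
    (n : ℕ) (A : Finset (Icc (0 : ℝ) 1)) (hA : IsSep φ (n + 1) ε A) :
    A.card ≤ (⌊K * (N : ℝ) ^ (1 - α)⌋₊ + 2) ^ n * (N + 1) := by
  apply card_itin' φ N _ _ n A
  · intro x hx y hy h
    by_contra hxy
    obtain ⟨j, hj, hlt⟩ := hA x hx y hy hxy
    have := code_close hN (h j hj)
    linarith
  · intro x y hxy
    have hN' : (0 : ℝ) < N := by exact_mod_cast hN
    have h1 := code_close hN hxy
    have h2 : |(x : ℝ) - y| ^ α ≤ (1 / (N : ℝ)) ^ α :=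
      Real.rpow_le_rpow (abs_nonneg _) h1.le hα.le
    have h3 : |(φ x : ℝ) - φ y| * N ≤ K * (N : ℝ) ^ (1 - α) := by
      have h4 : (1 / (N : ℝ)) ^ α * N = (N : ℝ) ^ (1 - α) := by
        rw [Real.rpow_sub hN', Real.rpow_one, one_div, Real.inv_rpow hN'.le]
        field_simp
      calc |(φ x : ℝ) - φ y| * N ≤ (K * |(x : ℝ) - y| ^ α) * N :=
            mul_le_mul_of_nonneg_right (hφ x y) hN'.le
        _ ≤ (K * (1 / (N : ℝ)) ^ α) * N := by gcongr
        _ = K * (N : ℝ) ^ (1 - α) := by rw [mul_assoc, h4]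
    set T := K * (N : ℝ) ^ (1 - α) with hT
    have hT1 := Nat.lt_floor_add_one T
    have ha : ((φ x : ℝ) - φ y) * N ≤ T :=
      (mul_le_mul_of_nonneg_right (le_abs_self _) hN'.le).trans h3
    have hx0 : 0 ≤ (φ x : ℝ) * N := mul_nonneg (φ x).2.1 hN'.le
    have hy0 : 0 ≤ (φ y : ℝ) * N := mul_nonneg (φ y).2.1 hN'.le
    have h5 := Nat.floor_le hx0
    have h6 := Nat.lt_floor_add_one ((φ y : ℝ) * N)
    unfold code
    have h7 : ((⌊(φ x : ℝ) * N⌋₊ : ℕ) : ℝ) < ((⌊(φ y : ℝ) * N⌋₊ + (⌊T⌋₊ + 2) : ℕ) : ℝ) := by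
      push_cast
      nlinarith
    exact_mod_cast h7

/-- **Main result.** Every `α`-Hölder self-map of `[0,1]` (`0 < α ≤ 1`) has upper metric mean
dimension at most `1 - α`; in particular neither its upper nor its lower metric mean dimension
equals `1`.  (The numbers `sep(n, φ, ε)` are maxima of bounded nonempty sets.) -/
theorem result (α : ℝ) (hα : 0 < α) (hα1 : α ≤ 1) (φ : Icc (0 : ℝ) 1 → Icc (0 : ℝ) 1)
    (hφ : ∃ K : ℝ, 0 < K ∧ ∀ x y : Icc (0 : ℝ) 1, |(φ x : ℝ) - φ y| ≤ K * |(x : ℝ) - y| ^ α) :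
    (∀ n : ℕ, 1 ≤ n → ∀ ε : ℝ, 0 < ε → BddAbove (sepCards φ n ε) ∧ (sepCards φ n ε).Nonempty) ∧
      upperMdim φ ≤ ((1 - α : ℝ) : EReal) ∧ upperMdim φ ≠ 1 ∧ lowerMdim φ ≠ 1 := by
  classical
  obtain ⟨K, hK, hφ⟩ := hφ
  -- bound on the cardinalities
  have hcard : ∀ ε : ℝ, 0 < ε → ∀ n : ℕ, ∀ k ∈ sepCards φ (n + 1) ε,
      k ≤ (⌊K * ((⌈1 / ε⌉₊ : ℕ) : ℝ) ^ (1 - α)⌋₊ + 2) ^ n * (⌈1 / ε⌉₊ + 1) := by
    rintro ε hε n k ⟨A, hA, rfl⟩
    have h1 : 0 < 1 / ε := by positivity
    have hN : 0 < ⌈1 / ε⌉₊ := Nat.ceil_pos.2 h1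
    apply sep_bound φ α K hα hK hφ ε _ hN _ n A hA
    have h2 := Nat.le_ceil (1 / ε)
    have hN' : (0 : ℝ) < (⌈1 / ε⌉₊ : ℕ) := by exact_mod_cast hN
    rw [div_le_iff₀ hN']
    rw [div_le_iff₀ hε] at h2
    linarith
  have hne : ∀ n : ℕ, ∀ ε : ℝ, (sepCards φ n ε).Nonempty := by
    intro n ε
    exact ⟨0, ∅, by intro x hx; simp at hx, by simp⟩
  have hbdd : ∀ n : ℕ, 1 ≤ n → ∀ ε : ℝ, 0 < ε → BddAbove (sepCards φ n ε) := by
    intro n hn ε hε
    obtain ⟨m, rfl⟩ : ∃ m, n = m + 1 := ⟨n - 1, by omega⟩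
    exact ⟨_, fun k hk => hcard ε hε m k hk⟩
  -- the rate bound
  have hrate : ∀ ε : ℝ, 0 < ε →
      sepRate φ ε ≤ ((Real.log (⌊K * ((⌈1 / ε⌉₊ : ℕ) : ℝ) ^ (1 - α)⌋₊ + 2 : ℕ) : ℝ) : EReal) := by
    intro ε hε
    set M : ℕ := ⌊K * ((⌈1 / ε⌉₊ : ℕ) : ℝ) ^ (1 - α)⌋₊ + 2 with hMdef
    set N : ℕ := ⌈1 / ε⌉₊ with hNdef
    have hM1 : (1 : ℝ) ≤ (M : ℝ) := by
      have : 1 ≤ M := by omega
      exact_mod_cast this
    have hlogM : 0 ≤ Real.log M := Real.log_nonneg hM1
    have hle : ∀ n : ℕ, 1 ≤ n → 1 / (n : ℝ) * Real.log (sepNum φ n ε) ≤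
        Real.log (N + 1) * (1 / (n : ℝ)) + Real.log M := by
      intro n hn
      obtain ⟨m, rfl⟩ : ∃ m, n = m + 1 := ⟨n - 1, by omega⟩
      have h1 : sepNum φ (m + 1) ε ≤ M ^ m * (N + 1) := by
        apply csSup_le (hne _ _)
        intro k hk
        exact hcard ε hε m k hk
      have h2 : Real.log (sepNum φ (m + 1) ε) ≤ m * Real.log M + Real.log (N + 1) := by
        rcases Nat.eq_zero_or_pos (sepNum φ (m + 1) ε) with h0 | h0
        · rw [h0]
          simp only [Nat.cast_zero, Real.log_zero]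
          have : 0 ≤ Real.log ((N : ℝ) + 1) := Real.log_nonneg (by
            have : (0 : ℝ) ≤ N := Nat.cast_nonneg N
            linarith)
          positivity
        · have h3 : (sepNum φ (m + 1) ε : ℝ) ≤ (M : ℝ) ^ m * (N + 1) := by exact_mod_cast h1
          have h4 := Real.log_le_log (by exact_mod_cast h0) h3
          rw [Real.log_mul (by positivity) (by positivity), Real.log_pow] at h4
          exact h4
      have hm0 : (0 : ℝ) < ((m + 1 : ℕ) : ℝ) := by positivity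
      have h5 : 1 / ((m + 1 : ℕ) : ℝ) * (m * Real.log M) ≤ Real.log M := by
        rw [one_div, inv_mul_le_iff₀ hm0]
        push_cast
        nlinarith
      calc 1 / ((m + 1 : ℕ) : ℝ) * Real.log (sepNum φ (m + 1) ε)
          ≤ 1 / ((m + 1 : ℕ) : ℝ) * (m * Real.log M + Real.log (N + 1)) := by
            apply mul_le_mul_of_nonneg_left h2 (by positivity)
        _ = 1 / ((m + 1 : ℕ) : ℝ) * (m * Real.log M) +
            Real.log (N + 1) * (1 / ((m + 1 : ℕ) : ℝ)) := by ring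
        _ ≤ _ := by linarith
    have hlim : Tendsto (fun n : ℕ => Real.log (N + 1) * (1 / (n : ℝ)) + Real.log M) atTop
        (𝓝 (Real.log M)) := by
      have h := (tendsto_one_div_atTop_nhds_zero_nat (𝕜 := ℝ)).const_mul (Real.log (N + 1))
      simpa using h.add_const (Real.log M)
    have hlim' : Tendsto (fun n : ℕ =>
        ((Real.log (N + 1) * (1 / (n : ℝ)) + Real.log M : ℝ) : EReal)) atTop
        (𝓝 ((Real.log M : ℝ) : EReal)) := (continuous_coe_real_ereal.tendsto _).comp hlim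
    unfold sepRate
    rw [← hlim'.limsup_eq]
    apply limsup_le_limsup
    · filter_upwards [eventually_ge_atTop 1] with n hn
      exact EReal.coe_le_coe_iff.2 (hle n hn)
    · isBoundedDefault
    · isBoundedDefault
  -- the final bound
  have hmain : upperMdim φ ≤ ((1 - α : ℝ) : EReal) := by
    set C : ℝ := Real.log (2 * K + 2) with hC
    have hbound : ∀ ε : ℝ, 0 < ε → ε < 1 → sepRate φ ε / ((|Real.log ε| : ℝ) : EReal) ≤
        (((1 - α) + C / |Real.log ε| : ℝ) : EReal) := by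
      intro ε hε hε1
      have hlog : Real.log ε < 0 := Real.log_neg hε hε1
      have habs : |Real.log ε| = - Real.log ε := abs_of_neg hlog
      have habs0 : 0 < |Real.log ε| := by rw [habs]; linarith
      set N : ℕ := ⌈1 / ε⌉₊ with hNdef
      have h1e : 1 < 1 / ε := by rw [lt_div_iff₀ hε]; linarith
      have hN2 : (N : ℝ) ≤ 2 * (1 / ε) := by
        have := (Nat.ceil_lt_add_one (show (0 : ℝ) ≤ 1 / ε by positivity)).le
        linarith
      have h1 : Real.log ((⌊K * (N : ℝ) ^ (1 - α)⌋₊ + 2 : ℕ) : ℝ) ≤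
          (1 - α) * |Real.log ε| + C := by
        have hp : (1 : ℝ) ≤ (1 / ε) ^ (1 - α) := Real.one_le_rpow h1e.le (by linarith)
        have h2 : (N : ℝ) ^ (1 - α) ≤ 2 * (1 / ε) ^ (1 - α) := by
          calc (N : ℝ) ^ (1 - α) ≤ (2 * (1 / ε)) ^ (1 - α) :=
                Real.rpow_le_rpow (Nat.cast_nonneg _) hN2 (by linarith)
            _ = 2 ^ (1 - α) * (1 / ε) ^ (1 - α) := Real.mul_rpow (by norm_num) (by positivity)
            _ ≤ 2 * (1 / ε) ^ (1 - α) := by
              apply mul_le_mul_of_nonneg_right _ (by positivity)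
              calc (2 : ℝ) ^ (1 - α) ≤ 2 ^ (1 : ℝ) :=
                    Real.rpow_le_rpow_of_exponent_le (by norm_num) (by linarith)
                _ = 2 := Real.rpow_one 2
        have h3 : ((⌊K * (N : ℝ) ^ (1 - α)⌋₊ + 2 : ℕ) : ℝ) ≤ (2 * K + 2) * (1 / ε) ^ (1 - α) := by
          push_cast
          have h4 := Nat.floor_le (show 0 ≤ K * (N : ℝ) ^ (1 - α) by positivity)
          calc (⌊K * (N : ℝ) ^ (1 - α)⌋₊ : ℝ) + 2 ≤ K * (N : ℝ) ^ (1 - α) + 2 := by linarith
            _ ≤ K * (2 * (1 / ε) ^ (1 - α)) + 2 * (1 / ε) ^ (1 - α) := by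
              have := mul_le_mul_of_nonneg_left h2 hK.le
              linarith
            _ = _ := by ring
        have h5 := Real.log_le_log (by positivity) h3
        rw [Real.log_mul (by positivity) (by positivity), Real.log_rpow (by positivity)] at h5
        have h6 : Real.log (1 / ε) = |Real.log ε| := by
          rw [habs, one_div, Real.log_inv]
        rw [h6] at h5
        linarith
      have h2 : sepRate φ ε ≤ (((1 - α) * |Real.log ε| + C : ℝ) : EReal) :=
        (hrate ε hε).trans (EReal.coe_le_coe_iff.2 h1)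
      have h3 : (((1 - α) + C / |Real.log ε| : ℝ) : EReal) =
          (((1 - α) * |Real.log ε| + C : ℝ) : EReal) / ((|Real.log ε| : ℝ) : EReal) := by
        rw [← EReal.coe_div]
        congr 1
        field_simp
      rw [h3]
      apply EReal.div_le_div_right_of_nonneg _ h2
      exact EReal.coe_nonneg.2 habs0.le
    have hlogt : Tendsto (fun ε : ℝ => |Real.log ε|) (𝓝[>] 0) atTop :=
      tendsto_abs_atBot_atTop.comp Real.tendsto_log_nhdsGT_zero
    have hlim : Tendsto (fun ε : ℝ => (1 - α) + C / |Real.log ε|) (𝓝[>] 0) (𝓝 (1 - α)) := by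
      have h := hlogt.const_div_atTop C
      simpa using h.const_add (1 - α)
    have hlim' : Tendsto (fun ε : ℝ => (((1 - α) + C / |Real.log ε| : ℝ) : EReal)) (𝓝[>] 0)
        (𝓝 ((1 - α : ℝ) : EReal)) := (continuous_coe_real_ereal.tendsto _).comp hlim
    unfold upperMdim
    rw [← hlim'.limsup_eq]
    apply limsup_le_limsup
    · have h01 : ∀ᶠ ε : ℝ in 𝓝[>] 0, ε ∈ Ioo (0 : ℝ) 1 := Ioo_mem_nhdsGT one_pos
      filter_upwards [h01] with ε hε
      exact hbound ε hε.1 hε.2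
    · isBoundedDefault
    · isBoundedDefault
  have hlt : ((1 - α : ℝ) : EReal) < 1 := by
    rw [← EReal.coe_one, EReal.coe_lt_coe_iff]
    linarith
  refine ⟨fun n hn ε hε => ⟨hbdd n hn ε hε, hne n ε⟩, hmain, ?_, ?_⟩
  · exact ne_of_lt (lt_of_le_of_lt hmain hlt)
  · have h1 : lowerMdim φ ≤ upperMdim φ := liminf_le_limsup
    exact ne_of_lt (lt_of_le_of_lt (h1.trans hmain) hlt)

end Pool.Agent.Results.MP_428550_an.HolderMeanDim
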