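import Mathlib

open MeasureTheory ProbabilityTheory Set unitInterval Measure
open scoped ENNReal

namespace Pool.Agent.Results.MP_0cce6e_pr.MomentLowerBound

/-! ## Statement-level definitions -/

/-- Vertices infected after `n` rounds of `r`-neighbour bootstrap percolation on `G` started
from the initially infected set `A`. -/
def infected {V : Type*} (G : SimpleGraph V) (r : ℕ) (A : Set V) : ℕ → Set V
  | 0 => A
  | n + 1 => infected G r A n ∪
      {v | (r : ℕ∞) ≤ (G.neighborSet v ∩ infected G r A n).encard}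

/-- Every vertex is eventually infected. -/
def Percolates {V : Type*} (G : SimpleGraph V) (r : ℕ) (A : Set V) : Prop :=
  ∀ v, ∃ n, v ∈ infected G r A n

/-- `p_c(G,r)`: infimum of the `p ∈ [0,1]` for which percolation has positive probability when
each vertex is initially infected independently with probability `p`. -/
noncomputable def pc {V : Type*} (G : SimpleGraph V) (r : ℕ) : ℝ :=
  sInf {p : ℝ | ∃ h : p ∈ I, 0 < setBernoulli (Set.univ : Set V) ⟨p, h⟩ {A | Percolates G r A}}

/-- The vertex set of the plane tree in which the vertex with address `u` has `ω u` children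
(the children of `u` are `u ++ [a]`, `a < ω u`; the root is `[]`). -/
def verts (ω : List ℕ → ℕ) : Set (List ℕ) :=
  {v | ∀ (u : List ℕ) (a : ℕ), u ++ [a] <+: v → a < ω u}

/-- The tree itself, as a graph: vertices are joined to their children. -/
def tree (ω : List ℕ → ℕ) : SimpleGraph (verts ω) where
  Adj u v := ∃ a : ℕ, v.1 = u.1 ++ [a] ∨ u.1 = v.1 ++ [a]
  symm := ⟨fun u v ⟨a, h⟩ => ⟨a, h.symm⟩⟩
  loopless := ⟨fun u ⟨a, h⟩ => by
    rcases h with h | h <;> simpa using congrArg List.length h⟩

/-- Law of the Galton–Watson tree: the numbers of children `ω u` are i.i.d. with law `μ`. -/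
noncomputable def gw (μ : Measure ℕ) : Measure (List ℕ → ℕ) := infinitePi (fun _ => μ)

/-! ## Deterministic part -/

section det

variable {r : ℕ}

/-- infected from below within `n` rounds -/
def Inf (r : ℕ) : ℕ → (List ℕ → ℕ × Prop) → Prop
  | 0, x => (x []).2
  | n + 1, x => (x []).2 ∨ ∃ S : Finset ℕ, S.card = r ∧ (∀ a ∈ S, a < (x []).1) ∧
      ∀ a ∈ S, Inf r n (fun w => x (a :: w))

lemma Inf_mono (n : ℕ) : ∀ x, Inf r n x → Inf r (n + 1) x := by
  induction n with
  | zero => intro x h; exact Or.inl h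
  | succ n ih =>
    intro x h
    rcases h with h | ⟨S, h1, h2, h3⟩
    · exact Or.inl h
    · exact Or.inr ⟨S, h1, h2, fun a ha => ih _ (h3 a ha)⟩

/-- good vertex -/
def Good (r : ℕ) (x : List ℕ → ℕ × Prop) : Prop :=
  ¬ (x []).2 ∧ ∀ a < (x []).1, ∀ n, ¬ Inf r n (fun w => x (a :: w))

lemma infected_mono {V : Type*} {G : SimpleGraph V} {A : Set V} (n : ℕ) :
    infected G r A n ⊆ infected G r A (n + 1) := fun _ h => Or.inl h

def sub {X : Type*} (x : List ℕ → X) (v : List ℕ) : List ℕ → X := fun w => x (v ++ w)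

lemma sub_cons {X : Type*} (x : List ℕ → X) (v : List ℕ) (a : ℕ) :
    (fun w => sub x v (a :: w)) = sub x (v ++ [a]) := by
  funext w; simp [sub]

lemma mem_verts_of_append {ω : List ℕ → ℕ} {v : List ℕ} {a : ℕ} (h : v ++ [a] ∈ verts ω) :
    a < ω v := h v a (List.prefix_refl _)

lemma mem_verts_of_prefix {ω : List ℕ → ℕ} {v w : List ℕ} (h : w ∈ verts ω) (hv : v <+: w) :
    v ∈ verts ω := fun u a hu => h u a (hu.trans hv)

lemma mem_verts_append {ω : List ℕ → ℕ} {v : List ℕ} {a : ℕ} (h : v ∈ verts ω) (ha : a < ω v) :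
    v ++ [a] ∈ verts ω := by
  intro u b hu
  rcases List.prefix_concat_iff.1 hu with h1 | h1
  · have := List.append_inj' h1 (by simp)
    obtain ⟨rfl, h2⟩ := this
    simp at h2; subst h2; exact ha
  · exact h u b h1

variable {ω : List ℕ → ℕ} {η : List ℕ → Prop}

abbrev zip (ω : List ℕ → ℕ) (η : List ℕ → Prop) : List ℕ → ℕ × Prop := fun w => (ω w, η w)

lemma neighbors_split {v : verts ω} {C : Set (verts ω)}
    (h : (r : ℕ∞) ≤ ((tree ω).neighborSet v ∩ C).encard)
    (hpar : ∀ p : verts ω, ∀ a, v.1 = p.1 ++ [a] → p ∉ C) :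
    ∃ S : Finset ℕ, S.card = r ∧ (∀ a ∈ S, a < ω v.1) ∧
      ∀ a ∈ S, ∃ hm : v.1 ++ [a] ∈ verts ω, (⟨v.1 ++ [a], hm⟩ : verts ω) ∈ C := by
  classical
  obtain ⟨t, hts, htc⟩ := Set.exists_subset_encard_eq h
  have hfin : t.Finite := Set.finite_of_encard_eq_coe htc
  have key : ∀ u ∈ t, u.1 = v.1 ++ [u.1.getLastD 0] := by
    intro u hu
    obtain ⟨hadj, hC⟩ := hts hu
    obtain ⟨a, ha | ha⟩ := hadj
    · rw [ha]; simp
    · exact absurd hC (hpar u a ha)
  refine ⟨hfin.toFinset.image (fun u => u.1.getLastD 0), ?_, ?_, ?_⟩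
  · rw [Finset.card_image_of_injOn]
    · rw [hfin.encard_eq_coe_toFinset_card] at htc
      exact_mod_cast htc
    · intro u hu u' hu' he
      have h1 := key u (by simpa using hu)
      have h2 := key u' (by simpa using hu')
      have he' : u.1.getLastD 0 = u'.1.getLastD 0 := he
      exact Subtype.ext (by rw [h1, h2, he'])
  · intro a ha
    obtain ⟨u, hu, rfl⟩ := Finset.mem_image.1 ha
    have h1 := key u (by simpa using hu)
    exact mem_verts_of_append (h1 ▸ u.2)
  · intro a ha
    obtain ⟨u, hu, rfl⟩ := Finset.mem_image.1 ha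
    have hu' : u ∈ t := by simpa using hu
    have h1 := key u hu'
    refine ⟨h1 ▸ u.2, ?_⟩
    have : (⟨v.1 ++ [u.1.getLastD 0], h1 ▸ u.2⟩ : verts ω) = u := Subtype.ext h1.symm
    rw [this]
    exact (hts hu').2

lemma Inf_of_infected (n : ℕ) : ∀ (p w : verts ω) (a : ℕ), w.1 = p.1 ++ [a] →
    w ∈ infected (tree ω) r {u | η u.1} n → p ∉ infected (tree ω) r {u | η u.1} n →
    Inf r n (sub (zip ω η) w.1) := by
  induction n with
  | zero =>
    intro p w a hw h1 _
    have : η w.1 := h1
    simpa [Inf, sub, zip] using this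
  | succ n ih =>
    intro p w a hw h1 h2
    have h2' : p ∉ infected (tree ω) r {u | η u.1} n := fun h => h2 (infected_mono n h)
    by_cases hwn : w ∈ infected (tree ω) r {u | η u.1} n
    · exact Inf_mono _ _ (ih p w a hw hwn h2')
    · rcases h1 with h1 | h1
      · exact absurd h1 hwn
      · obtain ⟨S, hS1, hS2, hS3⟩ := neighbors_split h1 (by
          intro p' a' hp'
          have : p' = p := by
            apply Subtype.ext
            have := List.append_inj' (hp'.symm.trans hw) (by simp)
            exact this.1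
          rw [this]; exact h2')
        refine Or.inr ⟨S, hS1, ?_, ?_⟩
        · intro b hb
          simpa [sub, zip] using hS2 b hb
        · intro b hb
          obtain ⟨hm, hC⟩ := hS3 b hb
          rw [sub_cons]
          exact ih w ⟨w.1 ++ [b], hm⟩ b rfl hC hwn

lemma not_infected_of_Good (hr : 2 ≤ r) (v : verts ω) (hv : Good r (sub (zip ω η) v.1)) (n : ℕ) :
    v ∉ infected (tree ω) r {u | η u.1} n := by
  induction n with
  | zero =>
    intro h
    have : η v.1 := h
    exact hv.1 (by simpa [sub, zip] using this)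
  | succ n ih =>
    intro h
    rcases h with h | h
    · exact ih h
    · -- all infected neighbours are parents
      have hsub : ((tree ω).neighborSet v ∩ infected (tree ω) r {u | η u.1} n).encard ≤ 1 := by
        rw [Set.encard_le_one_iff]
        have key : ∀ u, u ∈ (tree ω).neighborSet v ∩ infected (tree ω) r {u | η u.1} n →
            ∃ a, v.1 = u.1 ++ [a] := by
          rintro u ⟨⟨a, ha | ha⟩, hu⟩
          · exfalso
            have h1 := Inf_of_infected n v u a ha hu ih
            have h2 : a < ω v.1 := mem_verts_of_append (ha ▸ u.2)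
            refine hv.2 a (by simpa [sub, zip] using h2) n ?_
            rw [sub_cons, ← ha]
            exact h1
          · exact ⟨a, ha⟩
        intro u u' hu hu'
        obtain ⟨a, ha⟩ := key u hu
        obtain ⟨a', ha'⟩ := key u' hu'
        exact Subtype.ext (List.append_inj' (ha.symm.trans ha') (by simp)).1
      have h3 : (r : ℕ∞) ≤ 1 := le_trans h hsub
      have h4 : r ≤ 1 := by exact_mod_cast h3
      omega

end det


/-! ## Product measures on labelled trees -/

section blocks

variable {X : Type*} [MeasurableSpace X] (κ : Measure X) [IsProbabilityMeasure κ]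

/-- σ-algebra generated by the coordinates in `S` -/
abbrev sig (X : Type*) [MeasurableSpace X] (S : Set (List ℕ)) : MeasurableSpace (List ℕ → X) :=
  ⨆ i ∈ S, MeasurableSpace.comap (fun x : List ℕ → X => x i) inferInstance

lemma sig_le (S : Set (List ℕ)) : sig X S ≤ (inferInstance : MeasurableSpace (List ℕ → X)) := by
  refine iSup₂_le fun i _ => ?_
  exact (measurable_pi_apply i).comap_le

lemma indep_sig {S T : Set (List ℕ)} (h : Disjoint S T) :
    Indep (sig X S) (sig X T) (infinitePi (fun _ : List ℕ => κ)) := by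
  have h1 : iIndepFun (fun (i : List ℕ) (x : List ℕ → X) => x i)
      (infinitePi (fun _ : List ℕ => κ)) := iIndepFun_infinitePi (X := fun _ x => x) (by fun_prop)
  exact indep_iSup_of_disjoint (fun i => (measurable_pi_apply i).comap_le) h1 h

lemma measurable_coord_sig {S : Set (List ℕ)} {i : List ℕ} (hi : i ∈ S) :
    Measurable[sig X S] (fun x : List ℕ → X => x i) := by
  intro s hs
  refine (le_iSup₂_of_le (f := fun i (_ : i ∈ S) => MeasurableSpace.comap
    (fun x : List ℕ → X => x i) inferInstance) i hi le_rfl) _ ⟨s, hs, rfl⟩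

/-- law of a subtree -/
lemma map_sub (v : List ℕ) : (infinitePi (fun _ : List ℕ => κ)).map (fun x => sub x v) =
    infinitePi (fun _ : List ℕ => κ) := by
  have := map_infinitePi_infinitePi_of_inj (P := fun _ : List ℕ => κ)
    (f := fun w : List ℕ => v ++ w) (List.append_right_injective v)
  exact this

/-- independence between `F_n` and the subtree at `v`, `|v| = n` -/
lemma measure_inter_sub {n : ℕ} {v : List ℕ} (hv : v.length = n) {E : Set (List ℕ → X)}
    (hE : MeasurableSet[sig X {w | w.length < n}] E) {C : Set (List ℕ → X)}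
    (hC : MeasurableSet C) :
    infinitePi (fun _ : List ℕ => κ) (E ∩ {x | sub x v ∈ C}) =
      infinitePi (fun _ : List ℕ => κ) E * infinitePi (fun _ : List ℕ => κ) C := by
  have hd : Disjoint {w : List ℕ | w.length < n} {w : List ℕ | v <+: w} := by
    rw [Set.disjoint_left]
    intro w hw hw'
    have := List.IsPrefix.length_le (show v <+: w from hw')
    simp only [Set.mem_ofPred_eq] at hw
    omega
  have hi := indep_sig κ hd
  have hm : MeasurableSet[sig X {w : List ℕ | v <+: w}] {x : List ℕ → X | sub x v ∈ C} := by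
    have : Measurable[sig X {w : List ℕ | v <+: w}] (fun x : List ℕ → X => sub x v) := by
      rw [@measurable_pi_iff]
      intro w
      exact measurable_coord_sig (List.prefix_append v w)
    exact this hC
  rw [(Indep_iff _ _ _).1 hi E _ hE hm]
  congr 1
  have h2 : Measurable (fun x : List ℕ → X => sub x v) := by
    rw [measurable_pi_iff]; intro w; exact measurable_pi_apply _
  have := congrArg (fun m => m C) (map_sub κ v)
  simp only at this
  rw [map_apply h2 hC] at this
  exact this

/-- root decomposition -/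
lemma map_decomp :
    (infinitePi (fun _ : List ℕ => κ)).map (fun x => (x [], fun (a : ℕ) (w : List ℕ) => x (a :: w)))
      = κ.prod (infinitePi (fun _ : ℕ => infinitePi (fun _ : List ℕ => κ))) := by
  have hd : Disjoint {([] : List ℕ)} {w : List ℕ | w ≠ []} := by
    rw [Set.disjoint_left]
    intro w hw hw'
    exact hw' hw
  have hi := indep_sig κ hd
  have m1 : Measurable[sig X {([] : List ℕ)}] (fun x : List ℕ → X => x []) :=
    measurable_coord_sig (by simp)
  have m2 : Measurable[sig X {w : List ℕ | w ≠ []}]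
      (fun x : List ℕ → X => fun (a : ℕ) (w : List ℕ) => x (a :: w)) := by
    rw [@measurable_pi_iff]
    intro a
    rw [@measurable_pi_iff]
    intro w
    exact measurable_coord_sig (by simp)
  have hif : IndepFun (fun x : List ℕ → X => x [])
      (fun x : List ℕ → X => fun (a : ℕ) (w : List ℕ) => x (a :: w))
      (infinitePi (fun _ : List ℕ => κ)) := by
    rw [IndepFun_iff_Indep]
    exact indep_of_indep_of_le_left (indep_of_indep_of_le_right hi m2.comap_le) m1.comap_le
  rw [hif.map_prod_eq_prod_map_map]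
  · congr 1
    · exact infinitePi_map_eval (fun _ : List ℕ => κ) []
    · have h1 := map_infinitePi_infinitePi_of_inj (P := fun _ : List ℕ => κ)
        (f := fun p : ℕ × List ℕ => p.1 :: p.2) (by
          rintro ⟨a, w⟩ ⟨b, u⟩ h
          simpa using h)
      have h2 := infinitePi_map_curry (fun (_ : ℕ) (_ : List ℕ) => κ)
      rw [← h2, ← h1, map_map]
      · rfl
      · fun_prop
      · fun_prop
  · exact (measurable_pi_apply _).aemeasurable
  · refine Measurable.aemeasurable ?_
    fun_prop

lemma sig_mono {S T : Set (List ℕ)} (h : S ⊆ T) : sig X S ≤ sig X T :=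
  biSup_mono h

lemma measurable_sub (v : List ℕ) : Measurable (fun x : List ℕ → X => sub x v) := by
  rw [measurable_pi_iff]; intro w; exact measurable_pi_apply _

lemma measurableSet_mem_verts {k : X → ℕ} (hk : Measurable k) {n : ℕ} {v : List ℕ}
    (hv : v.length = n) :
    MeasurableSet[sig X {w | w.length < n}] {x | v ∈ verts (fun w => k (x w))} := by
  have : {x : List ℕ → X | v ∈ verts (fun w => k (x w))} =
      ⋂ (u : List ℕ), ⋂ (a : ℕ), ⋂ (_ : u ++ [a] <+: v), {x | a < k (x u)} := by
    ext x; simp [verts]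
  rw [this]
  refine MeasurableSet.iInter fun u => MeasurableSet.iInter fun a => MeasurableSet.iInter fun h => ?_
  have hu : u ∈ {w : List ℕ | w.length < n} := by
    have := List.IsPrefix.length_le h
    simp only [List.length_append, List.length_singleton] at this
    simp only [Set.mem_ofPred_eq]; omega
  have h1 : MeasurableSet {y : X | a < k y} := measurableSet_lt measurable_const hk
  exact measurable_coord_sig hu h1

lemma isSetAlgebra_cyl : IsSetAlgebra
    {E : Set (List ℕ → X) | ∃ n, MeasurableSet[sig X {w | w.length < n}] E} where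
  empty_mem := ⟨0, @MeasurableSet.empty _ (sig X {w | w.length < 0})⟩
  compl_mem := fun s ⟨n, hn⟩ => ⟨n, MeasurableSet.compl hn⟩
  union_mem := fun s t ⟨n, hn⟩ ⟨m, hm⟩ => by
    refine ⟨max n m, ?_⟩
    have h1 : {w : List ℕ | w.length < n} ⊆ {w : List ℕ | w.length < max n m} :=
      fun w hw => lt_of_lt_of_le (show w.length < n from hw) (le_max_left _ _)
    have h2 : {w : List ℕ | w.length < m} ⊆ {w : List ℕ | w.length < max n m} :=
      fun w hw => lt_of_lt_of_le (show w.length < m from hw) (le_max_right _ _)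
    exact MeasurableSet.union (sig_mono h1 _ hn) (sig_mono h2 _ hm)

lemma generate_cyl : (inferInstance : MeasurableSpace (List ℕ → X)) =
    MeasurableSpace.generateFrom
      {E : Set (List ℕ → X) | ∃ n, MeasurableSet[sig X {w | w.length < n}] E} := by
  apply le_antisymm
  · refine iSup_le fun i => ?_
    rintro s ⟨t, ht, rfl⟩
    apply MeasurableSpace.measurableSet_generateFrom
    refine ⟨i.length + 1, ?_⟩
    exact measurable_coord_sig (by simp) ht
  · apply MeasurableSpace.generateFrom_le
    rintro s ⟨n, hn⟩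
    exact sig_le _ _ hn

theorem zero_one {k : X → ℕ} (hk : Measurable k) {G D : Set (List ℕ → X)}
    (hG : MeasurableSet G) (hD : MeasurableSet D)
    (hpos : infinitePi (fun _ : List ℕ => κ) Gᶜ < 1)
    (hD1 : ∀ x ∈ D, ∀ n, ∃ v ∈ verts (fun w => k (x w)), v.length = n)
    (hD2 : ∀ x ∈ D, ∀ v ∈ verts (fun w => k (x w)), sub x v ∉ G) :
    infinitePi (fun _ : List ℕ => κ) D = 0 := by
  set Q := infinitePi (fun _ : List ℕ => κ) with hQ
  have key : ∀ n, ∀ E, MeasurableSet[sig X {w | w.length < n}] E → Q (E ∩ D) ≤ Q Gᶜ * Q E := by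
    intro n E hE
    have : Nonempty {v : List ℕ // v.length = n} := ⟨⟨List.replicate n 0, by simp⟩⟩
    obtain ⟨e, he⟩ := exists_surjective_nat {v : List ℕ // v.length = n}
    let f : ℕ → Set (List ℕ → X) := fun i => {x | (e i).1 ∈ verts (fun w => k (x w))}
    have hf : ∀ i, MeasurableSet[sig X {w | w.length < n}] (f i) := fun i =>
      measurableSet_mem_verts hk (e i).2
    have hdf : ∀ i, MeasurableSet[sig X {w | w.length < n}] (disjointed f i) := fun i =>
      MeasurableSet.disjointed hf i
    have hsub : E ∩ D ⊆ ⋃ i, (E ∩ disjointed f i) ∩ {x | sub x (e i).1 ∈ Gᶜ} := by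
      rintro x ⟨hxE, hxD⟩
      obtain ⟨v, hv, hvn⟩ := hD1 x hxD n
      obtain ⟨i, hi⟩ := he ⟨v, hvn⟩
      have hx : x ∈ ⋃ i, f i := by
        refine Set.mem_iUnion.2 ⟨i, ?_⟩
        show (e i).1 ∈ verts (fun w => k (x w))
        rw [hi]; exact hv
      rw [← iUnion_disjointed] at hx
      obtain ⟨j, hj⟩ := Set.mem_iUnion.1 hx
      refine Set.mem_iUnion.2 ⟨j, ⟨hxE, hj⟩, ?_⟩
      exact hD2 x hxD _ (disjointed_subset f j hj)
    calc Q (E ∩ D) ≤ Q (⋃ i, (E ∩ disjointed f i) ∩ {x | sub x (e i).1 ∈ Gᶜ}) := measure_mono hsub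
      _ ≤ ∑' i, Q ((E ∩ disjointed f i) ∩ {x | sub x (e i).1 ∈ Gᶜ}) := measure_iUnion_le _
      _ = ∑' i, Q (E ∩ disjointed f i) * Q Gᶜ := by
          refine tsum_congr fun i => ?_
          exact measure_inter_sub κ (e i).2 (MeasurableSet.inter hE (hdf i)) hG.compl
      _ = Q Gᶜ * ∑' i, Q (E ∩ disjointed f i) := by
          rw [ENNReal.tsum_mul_right, mul_comm]
      _ = Q Gᶜ * Q (⋃ i, E ∩ disjointed f i) := by
          rw [measure_iUnion]
          · intro i j hij
            exact ((disjoint_disjointed f) hij).mono inter_subset_right inter_subset_right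
          · intro i
            exact sig_le _ _ (MeasurableSet.inter hE (hdf i))
      _ ≤ Q Gᶜ * Q E := by
          gcongr
          exact Set.iUnion_subset fun i => inter_subset_left
  have hdense := Measure.MeasureDense.of_generateFrom_isSetAlgebra_finite Q
    (isSetAlgebra_cyl (X := X)) generate_cyl
  -- real numbers
  have key2 : ∀ ε : ℝ, 0 < ε → Q.real D ≤ Q.real Gᶜ * (Q.real D + ε) + ε := by
    intro ε hε
    obtain ⟨E, ⟨n, hE⟩, hE2⟩ := hdense.approx D hD (measure_ne_top _ _) ε hε
    have hEm : MeasurableSet E := sig_le _ _ hE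
    have hsd : Q.real (symmDiff D E) ≤ ε := by
      rw [measureReal_def]
      exact ENNReal.toReal_le_of_le_ofReal hε.le hE2.le
    have h1 : Q.real D ≤ Q.real (E ∩ D) + Q.real (symmDiff D E) := by
      refine le_trans (measureReal_mono ?_) (measureReal_union_le _ _)
      intro x hx
      by_cases hxE : x ∈ E
      · exact Or.inl ⟨hxE, hx⟩
      · exact Or.inr (Or.inl ⟨hx, hxE⟩)
    have h2 : Q.real E ≤ Q.real D + Q.real (symmDiff D E) := by
      refine le_trans (measureReal_mono ?_) (measureReal_union_le _ _)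
      intro x hx
      by_cases hxD : x ∈ D
      · exact Or.inl hxD
      · exact Or.inr (Or.inr ⟨hx, hxD⟩)
    have h3 : Q.real (E ∩ D) ≤ Q.real Gᶜ * Q.real E := by
      have := key n E hE
      rw [measureReal_def, measureReal_def, measureReal_def, ← ENNReal.toReal_mul]
      exact ENNReal.toReal_mono (ENNReal.mul_ne_top (measure_ne_top _ _) (measure_ne_top _ _)) this
    have h4 : 0 ≤ Q.real Gᶜ := measureReal_nonneg
    calc Q.real D ≤ Q.real (E ∩ D) + ε := by linarith
      _ ≤ Q.real Gᶜ * Q.real E + ε := by linarith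
      _ ≤ Q.real Gᶜ * (Q.real D + ε) + ε := by
          have : Q.real E ≤ Q.real D + ε := by linarith
          have := mul_le_mul_of_nonneg_left this h4
          linarith
  have hlt : Q.real Gᶜ < 1 := by
    rw [measureReal_def]
    have := (ENNReal.toReal_lt_toReal (measure_ne_top _ _) ENNReal.one_ne_top).2 hpos
    simpa using this
  have h0 : 0 ≤ Q.real D := measureReal_nonneg
  have hz : Q.real D = 0 := by
    by_contra hne
    have hpos' : 0 < Q.real D := lt_of_le_of_ne h0 (Ne.symm hne)
    set δ := Q.real Gᶜ with hδ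
    have hδ0 : 0 ≤ δ := measureReal_nonneg
    have h5 : 0 < (1 - δ) * Q.real D := mul_pos (by linarith) hpos'
    have := key2 ((1 - δ) * Q.real D / 4) (by positivity)
    nlinarith
  rw [measureReal_def, ENNReal.toReal_eq_zero_iff] at hz
  exact hz.resolve_right (measure_ne_top _ _)

end blocks

lemma map_zip {ι X Y : Type*} [MeasurableSpace X] [MeasurableSpace Y] (μ : Measure X)
    (β : Measure Y) [IsProbabilityMeasure μ] [IsProbabilityMeasure β] :
    ((infinitePi (fun _ : ι => μ)).prod (infinitePi (fun _ : ι => β))).map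
      (fun p : (ι → X) × (ι → Y) => fun i => (p.1 i, p.2 i)) =
    infinitePi (fun _ : ι => μ.prod β) := by
  apply eq_infinitePi
  intro s t ht
  have hmeas : Measurable (fun p : (ι → X) × (ι → Y) => fun i => (p.1 i, p.2 i)) := by fun_prop
  have hbox : MeasurableSet ((s : Set ι).pi t) := MeasurableSet.pi s.countable_toSet (fun i _ => ht i)
  rw [map_apply hmeas hbox, prod_apply (hmeas hbox)]
  have h1 : ∀ x : ι → X, infinitePi (fun _ : ι => β) (Prod.mk x ⁻¹'
      ((fun p : (ι → X) × (ι → Y) => fun i => (p.1 i, p.2 i)) ⁻¹' (s : Set ι).pi t)) =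
      ∏ i ∈ s, β (Prod.mk (x i) ⁻¹' t i) := by
    intro x
    have : (Prod.mk x ⁻¹'
      ((fun p : (ι → X) × (ι → Y) => fun i => (p.1 i, p.2 i)) ⁻¹' (s : Set ι).pi t)) =
      (s : Set ι).pi (fun i => Prod.mk (x i) ⁻¹' t i) := by
      ext y; simp [Set.mem_pi]
    rw [this, infinitePi_pi]
    intro i _
    exact measurable_prodMk_left (ht i)
  simp_rw [h1]
  have hif : iIndepFun (fun (i : ι) (x : ι → X) => β (Prod.mk (x i) ⁻¹' t i))
      (infinitePi (fun _ : ι => μ)) :=
    iIndepFun_infinitePi (X := fun i x => β (Prod.mk x ⁻¹' t i))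
      (fun i => measurable_measure_prodMk_left (ht i))
  rw [lintegral_prod_eq_prod_lintegral_of_indepFun s _ hif
    (fun i => (measurable_measure_prodMk_left (ht i)).comp (measurable_pi_apply i))]
  refine Finset.prod_congr rfl fun i _ => ?_
  rw [prod_apply (ht i), ← infinitePi_map_eval (fun _ : ι => μ) i,
    lintegral_map (measurable_measure_prodMk_left (ht i)) (measurable_pi_apply i)]
  rw [infinitePi_map_eval]

section X

variable {X : Type*} [MeasurableSpace X] (κ : Measure X) [IsProbabilityMeasure κ]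

lemma measurable_shift (a : ℕ) : Measurable (fun (x : List ℕ → X) (w : List ℕ) => x (a :: w)) := by
  fun_prop

lemma branch {A : Set X} (hA : MeasurableSet A) (S : Finset ℕ) {C : Set (List ℕ → X)}
    (hC : MeasurableSet C) :
    infinitePi (fun _ : List ℕ => κ) {x | x [] ∈ A ∧ ∀ a ∈ S, (fun w => x (a :: w)) ∈ C} =
      κ A * (infinitePi (fun _ : List ℕ => κ) C) ^ S.card := by
  have hbox : MeasurableSet ((S : Set ℕ).pi (fun _ => C) : Set (ℕ → List ℕ → X)) :=
    MeasurableSet.pi S.countable_toSet (fun i _ => hC)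
  have h := congrArg (fun m => m (A ×ˢ ((S : Set ℕ).pi (fun _ => C)))) (map_decomp κ)
  simp only at h
  rw [map_apply (by fun_prop) (hA.prod hbox), prod_prod, infinitePi_pi _ (fun _ _ => hC),
    Finset.prod_const] at h
  rw [← h]
  congr 1

end X

lemma measurableSet_Inf (r n : ℕ) : MeasurableSet {x : List ℕ → ℕ × Prop | Inf r n x} := by
  induction n with
  | zero =>
    have : Measurable (fun x : List ℕ → ℕ × Prop => (x []).2) := by fun_prop
    exact this (measurableSet_singleton True |> fun h => by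
      have : MeasurableSet {p : Prop | p} := MeasurableSet.of_discrete
      exact this)
  | succ n ih =>
    have h1 : MeasurableSet {x : List ℕ → ℕ × Prop | (x []).2} := by
      have : Measurable (fun x : List ℕ → ℕ × Prop => (x []).2) := by fun_prop
      exact this (show MeasurableSet {p : Prop | p} from MeasurableSet.of_discrete)
    have : {x : List ℕ → ℕ × Prop | Inf r (n+1) x} = {x | (x []).2} ∪
        ⋃ (S : Finset ℕ), ⋃ (_ : S.card = r), (⋂ a ∈ S, {x | a < (x []).1}) ∩
          (⋂ a ∈ S, {x | Inf r n (fun w => x (a :: w))}) := by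
      ext x
      simp only [Inf, Set.mem_ofPred_eq, Set.mem_union, Set.mem_iUnion, Set.mem_iInter,
        Set.mem_inter_iff, exists_prop]
    rw [this]
    refine h1.union (MeasurableSet.iUnion fun S => MeasurableSet.iUnion fun _ => ?_)
    refine MeasurableSet.inter ?_ ?_
    · refine Finset.measurableSet_biInter _ fun a _ => ?_
      have : Measurable (fun x : List ℕ → ℕ × Prop => (x []).1) := by fun_prop
      exact this (show MeasurableSet {p : ℕ | a < p} from MeasurableSet.of_discrete)
    · refine Finset.measurableSet_biInter _ fun a _ => ?_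
      exact measurable_shift a ih

section law

variable (μ : Measure ℕ) [IsProbabilityMeasure μ] (β : Measure Prop) [IsProbabilityMeasure β]

/-- law of the labelled tree -/
noncomputable abbrev Q : Measure (List ℕ → ℕ × Prop) := infinitePi (fun _ => μ.prod β)

lemma pointwise_bound (k r : ℕ) (y : ℝ≥0∞) (s : ℝ) (hs0 : 0 < s) (hs : s ≤ r) :
    min 1 ((k.choose r : ℝ≥0∞) * y ^ r) ≤ (k : ℝ≥0∞) ^ s * y ^ s := by
  rw [← ENNReal.mul_rpow_of_nonneg _ _ hs0.le]
  by_cases h : (k : ℝ≥0∞) * y ≤ 1
  · refine le_trans (min_le_right _ _) ?_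
    calc (k.choose r : ℝ≥0∞) * y ^ r ≤ (k : ℝ≥0∞) ^ r * y ^ r := by
          gcongr
          exact_mod_cast Nat.choose_le_pow k r
      _ = ((k : ℝ≥0∞) * y) ^ (r : ℝ) := by rw [ENNReal.rpow_natCast, mul_pow]
      _ ≤ ((k : ℝ≥0∞) * y) ^ s := ENNReal.rpow_le_rpow_of_exponent_ge h hs
  · refine le_trans (min_le_left _ _) ?_
    push Not at h
    exact ENNReal.one_le_rpow h.le hs0

lemma step_bound (r n : ℕ) (s : ℝ) (hs0 : 0 < s) (hs : s ≤ r) :
    Q μ β {x | Inf r (n+1) x} ≤ β {p | p} +
      (∫⁻ k, (k : ℝ≥0∞) ^ s ∂μ) * (Q μ β {x | Inf r n x}) ^ s := by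
  set y := Q μ β {x | Inf r n x} with hy
  have hsub : {x : List ℕ → ℕ × Prop | Inf r (n+1) x} ⊆ {x | (x []).2} ∪
      ⋃ (k : ℕ), ({x | (x []).1 = k} ∩ ⋃ S ∈ (Finset.range k).powersetCard r,
        {x | ∀ a ∈ S, (fun w => x (a :: w)) ∈ {x | Inf r n x}}) := by
    rintro x (h | ⟨S, h1, h2, h3⟩)
    · exact Or.inl h
    · refine Or.inr (Set.mem_iUnion.2 ⟨(x []).1, rfl, ?_⟩)
      refine Set.mem_iUnion₂.2 ⟨S, ?_, h3⟩
      rw [Finset.mem_powersetCard]
      exact ⟨fun a ha => Finset.mem_range.2 (h2 a ha), h1⟩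
  have hroot2 : Q μ β {x | (x []).2} = β {p | p} := by
    have h1 : MeasurableSet ((univ : Set ℕ) ×ˢ {p : Prop | p}) := MeasurableSet.of_discrete
    have := branch (μ.prod β) h1 ∅ (MeasurableSet.univ)
    simpa [prod_prod] using this
  have hk : ∀ k : ℕ, Q μ β ({x | (x []).1 = k} ∩ ⋃ S ∈ (Finset.range k).powersetCard r,
        {x | ∀ a ∈ S, (fun w => x (a :: w)) ∈ {x | Inf r n x}}) ≤
        (k : ℝ≥0∞) ^ s * y ^ s * μ {k} := by
    intro k
    have hmk : MeasurableSet (({k} : Set ℕ) ×ˢ (univ : Set Prop)) := MeasurableSet.of_discrete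
    have hA : Q μ β {x | (x []).1 = k} = μ {k} := by
      have := branch (μ.prod β) hmk ∅ (MeasurableSet.univ)
      simpa [prod_prod] using this
    have hB : ∀ S ∈ (Finset.range k).powersetCard r, Q μ β ({x | (x []).1 = k} ∩
        {x | ∀ a ∈ S, (fun w => x (a :: w)) ∈ {x | Inf r n x}}) = μ {k} * y ^ r := by
      intro S hS
      have := branch (μ.prod β) hmk S (measurableSet_Inf r n)
      rw [(Finset.mem_powersetCard.1 hS).2] at this
      have e1 : μ.prod β (({k} : Set ℕ) ×ˢ (univ : Set Prop)) = μ {k} := by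
        rw [prod_prod]; simp
      rw [e1] at this
      rw [← this]
      congr 1
      ext x
      simp
    have hfin : Q μ β ({x | (x []).1 = k} ∩ ⋃ S ∈ (Finset.range k).powersetCard r,
        {x | ∀ a ∈ S, (fun w => x (a :: w)) ∈ {x | Inf r n x}}) ≤
        min 1 ((k.choose r : ℝ≥0∞) * y ^ r) * μ {k} := by
      rw [min_mul_of_nonneg _ _ (zero_le), one_mul]
      refine le_min ?_ ?_
      · rw [← hA]; exact measure_mono inter_subset_left
      · rw [Set.inter_iUnion₂]
        refine le_trans (measure_biUnion_finset_le _ _) ?_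
        rw [Finset.sum_congr rfl hB, Finset.sum_const, Finset.card_powersetCard,
          Finset.card_range, nsmul_eq_mul]
        apply le_of_eq; ring
    refine le_trans hfin ?_
    gcongr
    exact pointwise_bound k r y s hs0 hs
  calc Q μ β {x | Inf r (n+1) x} ≤ Q μ β {x | (x []).2} +
        Q μ β (⋃ (k : ℕ), ({x | (x []).1 = k} ∩ ⋃ S ∈ (Finset.range k).powersetCard r,
        {x | ∀ a ∈ S, (fun w => x (a :: w)) ∈ {x | Inf r n x}})) :=
        le_trans (measure_mono hsub) (measure_union_le _ _)
    _ ≤ β {p | p} + ∑' k : ℕ, (k : ℝ≥0∞) ^ s * y ^ s * μ {k} := by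
        rw [hroot2]
        gcongr
        exact le_trans (measure_iUnion_le _) (ENNReal.tsum_le_tsum hk)
    _ = β {p | p} + (∫⁻ k, (k : ℝ≥0∞) ^ s ∂μ) * y ^ s := by
        congr 1
        rw [lintegral_countable', ← ENNReal.tsum_mul_right]
        refine tsum_congr fun k => ?_
        ring

end law

/-- Bernoulli law on `Prop`. -/
noncomputable def ber (p : I) : Measure Prop :=
  toNNReal p • dirac True + toNNReal (σ p) • dirac False

lemma ber_true (p : I) : ber p {True} = ENNReal.ofReal p := by
  have : ((toNNReal p : NNReal) : ℝ≥0∞) = ENNReal.ofReal p := by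
    rw [ENNReal.ofReal, ENNReal.coe_inj]
    ext; simp [Real.coe_toNNReal _ p.2.1]
  simp [ber, this]

lemma ber_false (p : I) : ber p {False} = ENNReal.ofReal (1 - p) := by
  have : ((toNNReal (σ p) : NNReal) : ℝ≥0∞) = ENNReal.ofReal (1 - p) := by
    rw [ENNReal.ofReal, ENNReal.coe_inj]
    ext; simp [p.2.2]
  simp [ber, this]

lemma ber_eq_map (p : I) : ber p = (volume : Measure I).map (fun u => u < p) := by
  have hm : Measurable (fun u : I => u < p) := by
    exact measurableSet_Iio.mem
  refine Measure.ext_of_singleton fun a => ?_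
  rw [map_apply hm (measurableSet_singleton _)]
  by_cases ha : a
  · have : a = True := by simpa using ha
    subst this
    rw [ber_true]
    have : (fun u : I => u < p) ⁻¹' {True} = Set.Iio p := by ext u; simp
    rw [this, unitInterval.volume_Iio]
  · have : a = False := by simpa using ha
    subst this
    rw [ber_false]
    have : (fun u : I => u < p) ⁻¹' {False} = Set.Ici p := by ext u; simp
    rw [this, unitInterval.volume_Ici]

instance (p : I) : IsProbabilityMeasure (ber p) := by
  rw [ber_eq_map]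
  exact isProbabilityMeasure_map (by
    have hm : Measurable (fun u : I => u < p) := measurableSet_Iio.mem
    exact hm.aemeasurable)

lemma setBer_apply {V : Type*} (p : I) (S : Set (Set V)) :
    setBernoulli (Set.univ : Set V) p S =
      infinitePi (fun _ : V => ber p) {f | {i | f i} ∈ S} := by
  rw [setBernoulli_apply']
  simp [ber]
  rfl

lemma infected_mono_set {V : Type*} (G : SimpleGraph V) (r : ℕ) {A B : Set V} (h : A ⊆ B) (n : ℕ) :
    infected G r A n ⊆ infected G r B n := by
  induction n with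
  | zero => exact h
  | succ n ih =>
    rintro v (hv | hv)
    · exact Or.inl (ih hv)
    · exact Or.inr (le_trans hv (Set.encard_le_encard (Set.inter_subset_inter_right _ ih)))

lemma measurableSet_infected {V : Type*} [Countable V] (G : SimpleGraph V) (r : ℕ) (n : ℕ) :
    ∀ v, MeasurableSet {f : V → Prop | v ∈ infected G r {i | f i} n} := by
  induction n with
  | zero =>
    intro v
    have : Measurable (fun f : V → Prop => f v) := by fun_prop
    exact this (show MeasurableSet {p : Prop | p} from MeasurableSet.of_discrete)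
  | succ n ih =>
    intro v
    have : {f : V → Prop | v ∈ infected G r {i | f i} (n+1)} =
        {f | v ∈ infected G r {i | f i} n} ∪
        ⋃ (S : Finset V), ⋃ (_ : S.card = r ∧ ∀ u ∈ S, G.Adj v u),
          (⋂ u ∈ S, {f | u ∈ infected G r {i | f i} n}) := by
      ext f
      simp only [infected, Set.mem_ofPred_eq, Set.mem_union, Set.mem_iUnion, Set.mem_iInter,
        exists_prop]
      refine or_congr Iff.rfl ⟨fun h => ?_, ?_⟩
      · obtain ⟨t, hts, htc⟩ := Set.exists_subset_encard_eq h
        have hfin : t.Finite := Set.finite_of_encard_eq_coe htc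
        rw [hfin.encard_eq_coe_toFinset_card] at htc
        refine ⟨hfin.toFinset, ⟨by exact_mod_cast htc, fun u hu => ?_⟩, fun u hu => ?_⟩
        · exact (hts (by simpa using hu)).1
        · exact (hts (by simpa using hu)).2
      · rintro ⟨S, ⟨h1, h2⟩, h3⟩
        have h1' : (r : ℕ∞) = (S : Set V).encard := by
          rw [Set.encard_coe_eq_coe_finsetCard, h1]
        rw [h1']
        exact Set.encard_le_encard fun u hu => ⟨h2 u (by simpa using hu), h3 u (by simpa using hu)⟩
    rw [this]
    refine (ih v).union (MeasurableSet.iUnion fun S => MeasurableSet.iUnion fun _ => ?_)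
    exact Finset.measurableSet_biInter _ fun u _ => ih u

lemma measurableSet_percolates {V : Type*} [Countable V] (G : SimpleGraph V) (r : ℕ) :
    MeasurableSet {f : V → Prop | Percolates G r {i | f i}} := by
  have : {f : V → Prop | Percolates G r {i | f i}} =
      ⋂ v, ⋃ n, {f : V → Prop | v ∈ infected G r {i | f i} n} := by
    ext f; simp [Percolates]
  rw [this]
  exact MeasurableSet.iInter fun v => MeasurableSet.iUnion fun n => measurableSet_infected G r n v

lemma perc_mono {V : Type*} [Countable V] (G : SimpleGraph V) (r : ℕ) {p q : I} (h : p ≤ q) :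
    setBernoulli (Set.univ : Set V) p {A | Percolates G r A} ≤
      setBernoulli (Set.univ : Set V) q {A | Percolates G r A} := by
  rw [setBer_apply, setBer_apply]
  have hm : ∀ p : I, Measurable (fun u : I => u < p) := fun p => measurableSet_Iio.mem
  have hp : ∀ p : I, infinitePi (fun _ : V => ber p) =
      (infinitePi (fun _ : V => (volume : Measure I))).map (fun x i => x i < p) := by
    intro p
    rw [infinitePi_map_pi _ (fun _ => hm p)]
    congr 1
    funext i
    exact ber_eq_map p
  rw [hp, hp, map_apply, map_apply]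
  · refine measure_mono fun x hx v => ?_
    obtain ⟨n, hn⟩ := hx v
    exact ⟨n, infected_mono_set G r (fun i hi => lt_of_lt_of_le hi h) n hn⟩
  · rw [measurable_pi_iff]; intro i; exact (hm q).comp (measurable_pi_apply i)
  · exact measurableSet_percolates G r
  · rw [measurable_pi_iff]; intro i; exact (hm p).comp (measurable_pi_apply i)
  · exact measurableSet_percolates G r


/-! ## The key estimates -/

section key

variable (μ : Measure ℕ) [IsProbabilityMeasure μ] (β : Measure Prop) [IsProbabilityMeasure β]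

lemma Inf_bound {r : ℕ} {s : ℝ} (hs0 : 0 < s) (hs : s ≤ r) {b c : ℝ≥0∞} (hβ : β {p | p} ≤ c)
    (hM : (∫⁻ k, (k : ℝ≥0∞) ^ s ∂μ) * b ^ s ≤ c) (hc : c + c ≤ b) (n : ℕ) :
    Q μ β {x | Inf r n x} ≤ b := by
  induction n with
  | zero =>
    have hroot2 : Q μ β {x | (x []).2} = β {p | p} := by
      have h1 : MeasurableSet ((univ : Set ℕ) ×ˢ {p : Prop | p}) := MeasurableSet.of_discrete
      have := branch (μ.prod β) h1 ∅ (MeasurableSet.univ)
      simpa [prod_prod] using this
    calc Q μ β {x | Inf r 0 x} = β {p | p} := hroot2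
      _ ≤ c := hβ
      _ ≤ c + c := le_self_add
      _ ≤ b := hc
  | succ n ih =>
    refine le_trans (step_bound μ β r n s hs0 hs) (le_trans ?_ hc)
    gcongr
    exact le_trans (by gcongr) hM

omit [IsProbabilityMeasure μ] [IsProbabilityMeasure β] in
lemma Inf_all_bound {r : ℕ} {b : ℝ≥0∞} (h : ∀ n, Q μ β {x | Inf r n x} ≤ b) :
    Q μ β {x | ∃ n, Inf r n x} ≤ b := by
  have hm : Monotone (fun n => {x : List ℕ → ℕ × Prop | Inf r n x}) :=
    monotone_nat_of_le_succ fun n x hx => Inf_mono n x hx
  have : {x : List ℕ → ℕ × Prop | ∃ n, Inf r n x} = ⋃ n, {x | Inf r n x} := by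
    ext x; simp
  rw [this, hm.measure_iUnion]
  exact iSup_le h

lemma measurableSet_Good (r : ℕ) : MeasurableSet {x : List ℕ → ℕ × Prop | Good r x} := by
  have h1 : MeasurableSet {x : List ℕ → ℕ × Prop | ¬ (x []).2} := by
    have : Measurable (fun x : List ℕ → ℕ × Prop => (x []).2) := by fun_prop
    exact this (show MeasurableSet {p : Prop | ¬ p} from MeasurableSet.of_discrete)
  have : {x : List ℕ → ℕ × Prop | Good r x} = {x | ¬ (x []).2} ∩
      ⋂ (a : ℕ), ({x | a < (x []).1}ᶜ ∪ ⋂ n, {x | Inf r n (fun w => x (a :: w))}ᶜ) := by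
    ext x
    simp only [Good, Set.mem_ofPred_eq, Set.mem_inter_iff, Set.mem_iInter, Set.mem_union,
      Set.mem_compl_iff, imp_iff_not_or]
  rw [this]
  refine h1.inter (MeasurableSet.iInter fun a => MeasurableSet.union ?_ ?_)
  · have : Measurable (fun x : List ℕ → ℕ × Prop => (x []).1) := by fun_prop
    exact (this (show MeasurableSet {p : ℕ | a < p} from MeasurableSet.of_discrete)).compl
  · exact MeasurableSet.iInter fun n => (measurable_shift a (measurableSet_Inf r n)).compl

lemma Good_pos {r : ℕ} {b : ℝ≥0∞} (hb : b < 1) (h : ∀ n, Q μ β {x | Inf r n x} ≤ b)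
    (hβ : 0 < β {p | ¬ p}) : 0 < Q μ β {x | Good r x} := by
  obtain ⟨k, hk⟩ : ∃ k, 0 < μ {k} := by
    by_contra hcon
    push Not at hcon
    have h0 : ∀ k, μ {k} = 0 := fun k => le_antisymm (hcon k) (zero_le)
    have : μ = 0 := Measure.ext_of_singleton (fun k => by simp [h0 k])
    exact (IsProbabilityMeasure.ne_zero μ) this
  have hCm : MeasurableSet {x : List ℕ → ℕ × Prop | ∃ n, Inf r n x} := by
    have : {x : List ℕ → ℕ × Prop | ∃ n, Inf r n x} = ⋃ n, {x | Inf r n x} := by
      ext x; simp
    rw [this]; exact MeasurableSet.iUnion fun n => measurableSet_Inf r n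
  have hC : 0 < Q μ β {x | ∃ n, Inf r n x}ᶜ := by
    rw [prob_compl_eq_one_sub hCm]
    exact tsub_pos_of_lt (lt_of_le_of_lt (Inf_all_bound μ β h) hb)
  have hA : MeasurableSet (({k} : Set ℕ) ×ˢ {p : Prop | ¬ p}) := MeasurableSet.of_discrete
  have hbr := branch (μ.prod β) hA (Finset.range k) hCm.compl
  have hpos : 0 < (μ.prod β) (({k} : Set ℕ) ×ˢ {p : Prop | ¬ p}) *
      (Q μ β {x | ∃ n, Inf r n x}ᶜ) ^ (Finset.range k).card := by
    rw [prod_prod]
    exact ENNReal.mul_pos (ENNReal.mul_pos hk.ne' hβ.ne').ne' (pow_ne_zero _ hC.ne')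
  rw [← hbr] at hpos
  refine lt_of_lt_of_le hpos (measure_mono ?_)
  rintro x ⟨hx1, hx2⟩
  have hx1' : (x []).1 = k ∧ ¬ (x []).2 := by simpa using hx1
  refine ⟨hx1'.2, fun a ha n hn => ?_⟩
  rw [hx1'.1] at ha
  exact hx2 a (Finset.mem_range.2 ha) ⟨n, hn⟩

/-- the bad event: the tree survives but has no good vertex -/
def Bad (r : ℕ) : Set (List ℕ → ℕ × Prop) :=
  {x | (∀ n, ∃ v ∈ verts (fun w => (x w).1), v.length = n) ∧
    ∀ v ∈ verts (fun w => (x w).1), ¬ Good r (sub x v)}

lemma measurableSet_verts_mem {X : Type*} [MeasurableSpace X] {k : X → ℕ} (hk : Measurable k)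
    (v : List ℕ) : MeasurableSet {x : List ℕ → X | v ∈ verts (fun w => k (x w))} :=
  sig_le _ _ (measurableSet_mem_verts (n := v.length) hk rfl)

lemma measurableSet_survive {X : Type*} [MeasurableSpace X] {k : X → ℕ} (hk : Measurable k) :
    MeasurableSet {x : List ℕ → X | ∀ n, ∃ v ∈ verts (fun w => k (x w)), v.length = n} := by
  have : {x : List ℕ → X | ∀ n, ∃ v ∈ verts (fun w => k (x w)), v.length = n} =
      ⋂ n, ⋃ v : List ℕ, ⋃ (_ : v.length = n), {x | v ∈ verts (fun w => k (x w))} := by
    ext x; simp [and_comm]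
  rw [this]
  exact MeasurableSet.iInter fun n => MeasurableSet.iUnion fun v => MeasurableSet.iUnion fun _ =>
    measurableSet_verts_mem hk v

lemma measurableSet_Bad (r : ℕ) : MeasurableSet (Bad r) := by
  have h2 : {x : List ℕ → ℕ × Prop | ∀ v ∈ verts (fun w => (x w).1), ¬ Good r (sub x v)} =
      ⋂ v : List ℕ, ({x | v ∈ verts (fun w => (x w).1)}ᶜ ∪ {x | Good r (sub x v)}ᶜ) := by
    ext x
    simp only [Set.mem_ofPred_eq, Set.mem_iInter, Set.mem_union, Set.mem_compl_iff,
      imp_iff_not_or]
  have h3 : Bad r = {x | ∀ n, ∃ v ∈ verts (fun w => (x w).1), v.length = n} ∩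
    {x : List ℕ → ℕ × Prop | ∀ v ∈ verts (fun w => (x w).1), ¬ Good r (sub x v)} := rfl
  rw [h3, h2]
  refine (measurableSet_survive measurable_fst).inter (MeasurableSet.iInter fun v => ?_)
  exact (measurableSet_verts_mem measurable_fst v).compl.union
    (measurable_sub v (measurableSet_Good r)).compl

lemma Bad_null {r : ℕ} (h : 0 < Q μ β {x | Good r x}) : Q μ β (Bad r) = 0 := by
  refine zero_one (μ.prod β) (k := Prod.fst) measurable_fst (measurableSet_Good r)
    (measurableSet_Bad r) ?_ (fun x hx => hx.1) (fun x hx => hx.2)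
  rw [prob_compl_eq_one_sub (measurableSet_Good r)]
  exact ENNReal.sub_lt_self (by simp) (by simp) h.ne'

/-- transfer to the tree -/
lemma ae_tree {r : ℕ} (h : Q μ β (Bad r) = 0) :
    ∀ᵐ ω ∂(gw μ), infinitePi (fun _ : List ℕ => β) {η | zip ω η ∈ Bad r} = 0 := by
  have h1 := map_zip (ι := List ℕ) μ β
  have hm : Measurable (fun p : (List ℕ → ℕ) × (List ℕ → Prop) =>
    (fun i => (p.1 i, p.2 i) : List ℕ → ℕ × Prop)) := by fun_prop
  have h2 : (infinitePi (fun _ : List ℕ => μ)).prod (infinitePi (fun _ : List ℕ => β))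
      ((fun p : (List ℕ → ℕ) × (List ℕ → Prop) =>
        (fun i => (p.1 i, p.2 i) : List ℕ → ℕ × Prop)) ⁻¹' (Bad r)) = 0 := by
    rw [← map_apply hm (measurableSet_Bad r), h1]
    exact h
  have h3 := measure_ae_null_of_prod_null h2
  filter_upwards [h3] with ω hω
  exact hω

lemma survive_of_infinite {ω : List ℕ → ℕ} (h : (verts ω).Infinite) (n : ℕ) :
    ∃ v ∈ verts ω, v.length = n := by
  by_contra hcon
  push Not at hcon
  -- generations are finite
  have hfin : ∀ m, {v ∈ verts ω | v.length = m}.Finite := by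
    intro m
    induction m with
    | zero =>
      refine (Set.finite_singleton ([] : List ℕ)).subset fun v hv => ?_
      simpa using hv.2
    | succ m ih =>
      refine (ih.biUnion (t := fun u => (fun a => u ++ [a]) '' (Set.Iio (ω u)))
        (fun u _ => (Set.finite_Iio _).image _)).subset fun v hv => ?_
      obtain ⟨hv1, hv2⟩ := hv
      have hne : v ≠ [] := by rintro rfl; simp at hv2
      have hv3 : v = v.dropLast ++ [v.getLast hne] := (List.dropLast_append_getLast hne).symm
      have hmem : v.dropLast ∈ verts ω := mem_verts_of_prefix hv1 (List.dropLast_prefix v)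
      refine Set.mem_iUnion₂.2 ⟨v.dropLast, ⟨hmem, by simp [hv2]⟩, v.getLast hne, ?_, hv3.symm⟩
      exact mem_verts_of_append (hv3 ▸ hv1)
  apply h
  refine ((Set.finite_Iio n).biUnion (t := fun m => {v ∈ verts ω | v.length = m})
    (fun m _ => hfin m)).subset fun v hv => ?_
  refine Set.mem_iUnion₂.2 ⟨v.length, ?_, hv, rfl⟩
  by_contra hlt
  have hlt' : n ≤ v.length := not_lt.1 hlt
  exact hcon (v.take n) (mem_verts_of_prefix hv (List.take_prefix n v)) (by simp [hlt'])

lemma perc_zero {r : ℕ} (hr : 2 ≤ r) {ω : List ℕ → ℕ} {q : I}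
    (hinf : (verts ω).Infinite)
    (h : infinitePi (fun _ : List ℕ => ber q) {η | zip ω η ∈ Bad r} = 0) :
    setBernoulli (Set.univ : Set (verts ω)) q {A | Percolates (tree ω) r A} = 0 := by
  rw [setBer_apply]
  have h1 : (infinitePi (fun _ : List ℕ => ber q)).map (verts ω).domRestrict =
      infinitePi (fun _ : verts ω => ber q) := infinitePi_map_restrict' _
  rw [← h1, map_apply (by fun_prop) (show MeasurableSet {f : verts ω → Prop |
    {i | f i} ∈ {A | Percolates (tree ω) r A}} from measurableSet_percolates _ _)]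
  refine measure_mono_null (fun η hη => ?_) h
  refine ⟨survive_of_infinite hinf, fun v hv hgood => ?_⟩
  obtain ⟨n, hn⟩ := hη ⟨v, hv⟩
  exact not_infected_of_Good (η := η) hr ⟨v, hv⟩ hgood n hn

lemma le_pc {r : ℕ} {V : Type*} [Countable V] {G : SimpleGraph V} {q : I}
    (h : setBernoulli (Set.univ : Set V) q {A | Percolates G r A} = 0) : (q : ℝ) ≤ pc G r := by
  apply le_csInf
  · refine ⟨1, ⟨by norm_num, le_rfl⟩, ?_⟩
    have : (⟨1, ⟨by norm_num, le_rfl⟩⟩ : I) = 1 := rfl
    rw [this, setBernoulli_one]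
    have : (Set.univ : Set V) ∈ {A | Percolates G r A} := fun v => ⟨0, trivial⟩
    rw [dirac_apply_of_mem this]
    exact one_pos
  · rintro p ⟨hp, hpos⟩
    by_contra hlt
    push Not at hlt
    have := perc_mono G r (show (⟨p, hp⟩ : I) ≤ q from hlt.le)
    rw [h] at this
    exact absurd hpos (not_lt.2 this)

/-- subcritical trees die out -/
lemma extinct (hM : ∫⁻ k, (k : ℝ≥0∞) ∂μ < 1) : ∀ᵐ ω ∂(gw μ), ¬ (verts ω).Infinite := by
  set S : Set (List ℕ → ℕ) := {ω | ∀ n, ∃ v ∈ verts ω, v.length = n} with hS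
  have hSm : MeasurableSet S := measurableSet_survive (k := id) measurable_id
  have hsub : S ⊆ ⋃ k : ℕ, ⋃ a ∈ Finset.range k, {ω : List ℕ → ℕ | ω [] ∈ ({k} : Set ℕ) ∧
      ∀ b ∈ ({a} : Finset ℕ), (fun w => ω (b :: w)) ∈ S} := by
    intro ω hω
    -- some child survives
    have hch : ∃ a < ω [], (fun w => ω (a :: w)) ∈ S := by
      by_contra hcon
      push Not at hcon
      have h1 : ∀ a < ω [], ∃ n, ∀ v ∈ verts (fun w => ω (a :: w)), v.length ≠ n := by
        intro a ha
        have := hcon a ha
        simp only [hS, Set.mem_ofPred_eq, not_forall, not_exists, not_and] at this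
        exact this
      choose! N hN using h1
      obtain ⟨v, hv, hvl⟩ := hω (((Finset.range (ω [])).sup N) + 1)
      cases v with
      | nil => simp at hvl
      | cons a v =>
        have ha : a < ω [] := by
          have := hv [] a (by simp)
          exact this
        have hv' : v ∈ verts (fun w => ω (a :: w)) := by
          intro u b hu
          exact hv (a :: u) b (by simpa using hu)
        have hle : N a ≤ v.length := by
          have h2 : N a ≤ (Finset.range (ω [])).sup N := Finset.le_sup (Finset.mem_range.2 ha)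
          simp only [List.length_cons] at hvl
          omega
        exact hN a ha (v.take (N a)) (mem_verts_of_prefix hv' (List.take_prefix _ v))
          (by simp [hle])
    obtain ⟨a, ha, has⟩ := hch
    refine Set.mem_iUnion.2 ⟨ω [], Set.mem_iUnion₂.2 ⟨a, Finset.mem_range.2 ha, rfl, ?_⟩⟩
    intro b hb
    rw [Finset.mem_singleton.1 hb]
    exact has
  have hle : gw μ S ≤ (∫⁻ k, (k : ℝ≥0∞) ∂μ) * gw μ S := by
    calc gw μ S ≤ ∑' k : ℕ, ∑ a ∈ Finset.range k, gw μ {ω : List ℕ → ℕ | ω [] ∈ ({k} : Set ℕ) ∧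
          ∀ b ∈ ({a} : Finset ℕ), (fun w => ω (b :: w)) ∈ S} := by
          refine le_trans (measure_mono hsub) (le_trans (measure_iUnion_le _) ?_)
          exact ENNReal.tsum_le_tsum fun k => measure_biUnion_finset_le _ _
      _ = ∑' k : ℕ, (k : ℝ≥0∞) * μ {k} * gw μ S := by
          refine tsum_congr fun k => ?_
          have : ∀ a ∈ Finset.range k, gw μ {ω : List ℕ → ℕ | ω [] ∈ ({k} : Set ℕ) ∧
              ∀ b ∈ ({a} : Finset ℕ), (fun w => ω (b :: w)) ∈ S} = μ {k} * gw μ S := by
            intro a _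
            have := branch μ (measurableSet_singleton k) {a} hSm
            rw [Finset.card_singleton, pow_one] at this
            exact this
          rw [Finset.sum_congr rfl this, Finset.sum_const, Finset.card_range, nsmul_eq_mul]
          ring
      _ = (∫⁻ k, (k : ℝ≥0∞) ∂μ) * gw μ S := by
          rw [ENNReal.tsum_mul_right, lintegral_countable']
  have hfin : gw μ S ≠ ∞ := by
    have : IsProbabilityMeasure (gw μ) := by unfold gw; infer_instance
    exact measure_ne_top _ _
  have hz : gw μ S = 0 := by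
    by_contra hne
    have hlt : (∫⁻ k, (k : ℝ≥0∞) ∂μ) * gw μ S < 1 * gw μ S :=
      (ENNReal.mul_lt_mul_iff_left hne hfin).2 hM
    rw [one_mul] at hlt
    exact absurd hle (not_le.2 hlt)
  have : ∀ᵐ ω ∂(gw μ), ω ∉ S := measure_eq_zero_iff_ae_notMem.1 hz
  filter_upwards [this] with ω hω hinf
  exact hω (survive_of_infinite hinf)

end key

/-- Let `r ≥ 2` and `0 < α ≤ r - 1`.  For every offspring distribution `μ`, almost every infinite
Galton–Watson tree `T` with offspring distribution `μ` satisfies
`p_c(T,r) ≥ 2^{-(1+1/α)} (E ξ^{1+α})^{-1/α}`. -/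
theorem result (r : ℕ) (hr : 2 ≤ r) (α : ℝ) (hα0 : 0 < α) (hα : α ≤ r - 1)
    (μ : Measure ℕ) [IsProbabilityMeasure μ] :
    ∀ᵐ ω ∂(gw μ), (verts ω).Infinite →
      ENNReal.ofReal ((2 : ℝ) ^ (-(1 + 1 / α))) *
        (∫⁻ k, (k : ℝ≥0∞) ^ (1 + α) ∂μ) ^ (-(1 / α)) ≤ ENNReal.ofReal (pc (tree ω) r) := by
  set M := ∫⁻ k, (k : ℝ≥0∞) ^ (1 + α) ∂μ with hM
  by_cases hMtop : M = ∞
  · refine Filter.Eventually.of_forall fun ω _ => ?_
    rw [hMtop, ENNReal.top_rpow_of_neg (by have := one_div_pos.2 hα0; linarith), mul_zero]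
    exact zero_le
  by_cases hM1 : ∫⁻ k, (k : ℝ≥0∞) ∂μ < 1
  · filter_upwards [extinct μ hM1] with ω hω hinf
    exact absurd hinf hω
  have hM2 : 1 ≤ M := by
    refine le_trans (not_lt.1 hM1) (lintegral_mono fun k => ?_)
    rcases Nat.eq_zero_or_pos k with rfl | hk
    · simp
    · have h1 : (1 : ℝ≥0∞) ≤ k := by exact_mod_cast hk
      calc (k : ℝ≥0∞) = (k : ℝ≥0∞) ^ (1 : ℝ) := by rw [ENNReal.rpow_one]
        _ ≤ (k : ℝ≥0∞) ^ (1 + α) := ENNReal.rpow_le_rpow_of_exponent_le h1 (by linarith)
  obtain ⟨m, hm, hMm⟩ : ∃ m : ℝ, 1 ≤ m ∧ M = ENNReal.ofReal m := by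
    refine ⟨M.toReal, ?_, (ENNReal.ofReal_toReal hMtop).symm⟩
    have := (ENNReal.toReal_le_toReal ENNReal.one_ne_top hMtop).2 hM2
    simpa using this
  have hm0 : (0 : ℝ) < m := by linarith
  set b : ℝ := (2 * m) ^ (-(1 / α)) with hb
  have hb0 : 0 < b := Real.rpow_pos_of_pos (by linarith) _
  have hb1 : b < 1 := Real.rpow_lt_one_of_one_lt_of_neg (by linarith)
    (by have := one_div_pos.2 hα0; linarith)
  have hbα : b ^ α = (2 * m)⁻¹ := by
    rw [hb, ← Real.rpow_mul (by linarith)]
    have : -(1 / α) * α = -1 := by field_simp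
    rw [this, Real.rpow_neg_one]
  let q : I := ⟨b / 2, by linarith, by linarith⟩
  have hβ : ber q {p | p} ≤ ENNReal.ofReal (b / 2) := by
    have : {p : Prop | p} = {True} := by ext p; simp
    rw [this, ber_true]
  have hβ' : 0 < ber q {p | ¬ p} := by
    have : {p : Prop | ¬ p} = {False} := by ext p; simp
    rw [this, ber_false, ENNReal.ofReal_pos]
    show 0 < 1 - b / 2
    linarith
  have hMb : (∫⁻ k, (k : ℝ≥0∞) ^ (1 + α) ∂μ) * (ENNReal.ofReal b) ^ (1 + α) ≤
      ENNReal.ofReal (b / 2) := by
    rw [← hM, hMm, ENNReal.ofReal_rpow_of_pos hb0, ← ENNReal.ofReal_mul hm0.le]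
    apply ENNReal.ofReal_le_ofReal
    rw [Real.rpow_add hb0, Real.rpow_one, hbα]
    apply le_of_eq
    field_simp
  have hc : ENNReal.ofReal (b / 2) + ENNReal.ofReal (b / 2) ≤ ENNReal.ofReal b := by
    rw [← ENNReal.ofReal_add (by linarith) (by linarith)]
    exact ENNReal.ofReal_le_ofReal (by linarith)
  have hbound := Inf_bound μ (ber q) (r := r) (s := 1 + α) (by linarith) (by linarith) hβ hMb hc
  have hgood := Good_pos μ (ber q) (b := ENNReal.ofReal b)
    (by rw [ENNReal.ofReal_lt_one]; exact hb1) hbound hβ'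
  filter_upwards [ae_tree μ (ber q) (Bad_null μ (ber q) hgood)] with ω hω hinf
  have hpc := le_pc (perc_zero hr hinf hω)
  have : ENNReal.ofReal ((2 : ℝ) ^ (-(1 + 1 / α))) * M ^ (-(1 / α)) = ENNReal.ofReal (b / 2) := by
    rw [hMm, ENNReal.ofReal_rpow_of_pos hm0, ← ENNReal.ofReal_mul (by positivity)]
    congr 1
    rw [hb, Real.mul_rpow (by norm_num) hm0.le, neg_add, Real.rpow_add (by norm_num),
      Real.rpow_neg_one]
    ring
  rw [this]
  exact ENNReal.ofReal_le_ofReal hpc

end Pool.Agent.Results.MP_0cce6e_pr.MomentLowerBound
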